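import Pool.Agent.Work.MP_46fa68_81.C78

/-!
# MP_46fa68_co: U0, rows >= 2, classes (5,6) and (4,6)
-/

set_option autoImplicit false

open Finset

namespace Pool.JM.H81

open Pool.JM.H5

/-- Weierstrass -/
theorem prod_one_sub_ge {ι : Type*} [DecidableEq ι] (S : Finset ι) (a : ι → ℝ)
    (h0 : ∀ i ∈ S, 0 ≤ a i) (h1 : ∀ i ∈ S, a i ≤ 1) : 1 - ∑ i ∈ S, a i ≤ ∏ i ∈ S, (1 - a i) := by
  induction S using Finset.induction_on with
  | empty => simp
  | insert b S hb ih =>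
    rw [sum_insert hb, prod_insert hb]
    have h2 := ih (fun i hi => h0 i (mem_insert_of_mem hi)) (fun i hi => h1 i (mem_insert_of_mem hi))
    have h3 := h0 b (mem_insert_self _ _)
    have h4 := h1 b (mem_insert_self _ _)
    have h5 : 0 ≤ ∑ i ∈ S, a i := sum_nonneg fun i hi => h0 i (mem_insert_of_mem hi)
    have h6 := mul_le_mul_of_nonneg_left h2 (by linarith : 0 ≤ 1 - a b)
    nlinarith [mul_nonneg h3 h5]

/-- **lower bound of the quotient of two consecutive ratios** -/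
theorem Qx_succ_ge {B : Finset ℕ} {x : ℕ} (p : ℕ) {P : ℝ} (hP : P = (x : ℝ) + p + 1 - blw B x)
    (hr : (bx B x : ℝ) < P + 1) (hP0 : 1 ≤ P) :
    (P - bx B x / (P + 1 - bx B x)) * Qx B x (p + 1) ≤ Qx B x p := by
  have hb : blw B x ≤ x := blw_le B x
  have hbR : (blw B x : ℝ) ≤ x := by exact_mod_cast hb
  have hp0 : (0 : ℝ) ≤ p := Nat.cast_nonneg p
  have e1 : Qx B x p = Qx B x (p + 1) *
      (((x : ℝ) + p + 1) * ∏ y ∈ B.filter (· < x), ((((x + p : ℕ) : ℝ) - y) / (((x + p : ℕ) : ℝ) + 1 - y))) := by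
    unfold Qx
    have f1 : ((x + (p + 1)).factorial : ℝ) = ((x : ℝ) + p + 1) * ((x + p).factorial : ℝ) := by
      rw [← add_assoc, Nat.factorial_succ]
      push_cast
      ring
    have e2 : ∏ y ∈ B.filter (· < x), (((x : ℝ) + p - y) / ((x : ℝ) - y)) =
        (∏ y ∈ B.filter (· < x), (((x : ℝ) + (p + 1 : ℕ) - y) / ((x : ℝ) - y))) *
        ∏ y ∈ B.filter (· < x), ((((x + p : ℕ) : ℝ) - y) / (((x + p : ℕ) : ℝ) + 1 - y)) := by
      rw [← prod_mul_distrib]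
      refine prod_congr rfl fun y hy => ?_
      have h1 : (y : ℝ) < x := by exact_mod_cast (mem_filter.1 hy).2
      have h3 : (x : ℝ) - y ≠ 0 := by linarith
      have h4 : (x : ℝ) + p + 1 - y ≠ 0 := by linarith
      have h5 : (x : ℝ) + (p + 1) - y ≠ 0 := by linarith
      push_cast
      field_simp
      ring
    rw [e2, f1]
    have g1 : (0 : ℝ) < ((x + p).factorial : ℝ) := by exact_mod_cast Nat.factorial_pos _
    have g2 : (0 : ℝ) < (x : ℝ) + p + 1 := by positivity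
    field_simp
  -- the two factors
  have e3 : ∏ y ∈ B.filter (· < x), ((((x + p : ℕ) : ℝ) - y) / (((x + p : ℕ) : ℝ) + 1 - y)) =
      (∏ y ∈ B.filter (· < x), ((((x + p : ℕ) : ℝ) - blw B y) / (((x + p : ℕ) : ℝ) + 1 - blw B y))) *
      ∏ y ∈ B.filter (· < x), (1 - (ln B y : ℝ) /
        ((((x + p : ℕ) : ℝ) + 1 - y) * (((x + p : ℕ) : ℝ) - blw B y))) := by
    rw [← prod_mul_distrib]
    refine prod_congr rfl fun y hy => ?_
    have h1 : (y : ℝ) < x := by exact_mod_cast (mem_filter.1 hy).2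
    have h2 : (ln B y : ℝ) + blw B y = y := by exact_mod_cast ln_add B y
    have h3 : (0 : ℝ) ≤ ln B y := Nat.cast_nonneg _
    have h4 : (0 : ℝ) < (x : ℝ) + p + 1 - y := by linarith
    have h5 : (0 : ℝ) < (x : ℝ) + p - blw B y := by linarith
    have h6 : (0 : ℝ) < (x : ℝ) + p + 1 - blw B y := by linarith
    have h7 : (ln B y : ℝ) = y - blw B y := by linarith
    rw [h7]
    push_cast
    field_simp
    ring
  have e4 : ∏ y ∈ B.filter (· < x), ((((x + p : ℕ) : ℝ) - blw B y) / (((x + p : ℕ) : ℝ) + 1 - blw B y)) =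
      P / ((x : ℝ) + p + 1) := by
    have e5 : ∏ z ∈ range (blw B x), ((((x + p : ℕ) : ℝ) - z) / (((x + p : ℕ) : ℝ) + 1 - z)) =
        ∏ y ∈ B.filter (· < x), ((((x + p : ℕ) : ℝ) - blw B y) / (((x + p : ℕ) : ℝ) + 1 - blw B y)) := by
      unfold blw
      rw [← prod_blw (fun z => (((x + p : ℕ) : ℝ) - z) / (((x + p : ℕ) : ℝ) + 1 - z)) (B.filter (· < x))]
      refine prod_congr rfl fun b hb => ?_
      rw [blw_filter (mem_filter.1 hb).2.le]
      rfl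
    rw [← e5, prod_tel (x + p) (blw B x) (by omega), hP]
    push_cast
    ring
  have hD : ∀ y ∈ B.filter (· < x), P ≤ ((x + p : ℕ) : ℝ) - blw B y ∧
      P + 1 - bx B x ≤ ((x + p : ℕ) : ℝ) + 1 - y := by
    intro y hy
    obtain ⟨h1, h2⟩ := mem_filter.1 hy
    have h3 : (blw B y : ℝ) + 1 ≤ blw B x := by
      exact_mod_cast Nat.succ_le_of_lt (blw_lt_of_mem h1 h2)
    have h4 : (ln B y : ℝ) + blw B y = y := by exact_mod_cast ln_add B y
    have h5 : (ln B y : ℝ) ≤ bx B x := by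
      have : ln B y ≤ bx B x := by
        unfold bx
        exact single_le_sum (f := fun b => ln B b) (fun _ _ => Nat.zero_le _) hy
      exact_mod_cast this
    push_cast
    constructor
    · rw [hP]
      linarith
    · rw [hP]
      linarith
  have e6 : 1 - (bx B x : ℝ) / ((P + 1 - bx B x) * P) ≤
      ∏ y ∈ B.filter (· < x), (1 - (ln B y : ℝ) /
        ((((x + p : ℕ) : ℝ) + 1 - y) * (((x + p : ℕ) : ℝ) - blw B y))) := by
    have hP1 : 0 < P + 1 - bx B x := by linarith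
    have hPP : 0 < P := by linarith
    refine le_trans ?_ (prod_one_sub_ge _ _ (fun y hy => ?_) (fun y hy => ?_))
    · have h1 : ∑ y ∈ B.filter (· < x), (ln B y : ℝ) /
          ((((x + p : ℕ) : ℝ) + 1 - y) * (((x + p : ℕ) : ℝ) - blw B y)) ≤
          ∑ y ∈ B.filter (· < x), (ln B y : ℝ) / ((P + 1 - bx B x) * P) := by
        refine sum_le_sum fun y hy => ?_
        obtain ⟨h1, h2⟩ := hD y hy
        refine div_le_div_of_nonneg_left (Nat.cast_nonneg _) (by positivity) ?_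
        exact mul_le_mul h2 h1 hPP.le (by linarith)
      rw [← sum_div] at h1
      have h2 : ∑ y ∈ B.filter (· < x), (ln B y : ℝ) = bx B x := by
        unfold bx
        push_cast
        rfl
      rw [h2] at h1
      linarith
    · obtain ⟨h1, h2⟩ := hD y hy
      exact div_nonneg (Nat.cast_nonneg _) (mul_nonneg (by linarith) (by linarith))
    · obtain ⟨h1, h2⟩ := hD y hy
      rw [div_le_one (mul_pos (by linarith) (by linarith))]
      have h3 : (y : ℝ) < x := by exact_mod_cast (mem_filter.1 hy).2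
      have h4 : (ln B y : ℝ) + blw B y = y := by exact_mod_cast ln_add B y
      have h5 : (0 : ℝ) ≤ blw B y := Nat.cast_nonneg _
      have h6 : (ln B y : ℝ) ≤ ((x + p : ℕ) : ℝ) - blw B y := by
        push_cast
        linarith
      have h7 : (1 : ℝ) ≤ ((x + p : ℕ) : ℝ) + 1 - y := by
        push_cast
        linarith
      nlinarith
  rw [e1, e3, e4, mul_comm]
  refine mul_le_mul_of_nonneg_left ?_ (Qx_nonneg B x (p + 1))
  have g2 : (0 : ℝ) < (x : ℝ) + p + 1 := by positivity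
  have hP1 : 0 < P + 1 - bx B x := by linarith
  have hPP : 0 < P := by linarith
  calc P - bx B x / (P + 1 - bx B x) = P * (1 - (bx B x : ℝ) / ((P + 1 - bx B x) * P)) := by
        field_simp
    _ ≤ P * ∏ y ∈ B.filter (· < x), (1 - (ln B y : ℝ) /
        ((((x + p : ℕ) : ℝ) + 1 - y) * (((x + p : ℕ) : ℝ) - blw B y))) :=
        mul_le_mul_of_nonneg_left e6 hPP.le
    _ = _ := by field_simp

/-- the kernel values of the layer 6 -/
theorem kh6_vals {m M0 : ℕ} (hm : 21 ≤ m) (hM : 6 ≤ M0) {g : ℝ}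
    (hg : g = ((m - 3 + 6 - 2).choose 5 : ℝ) / ((m - 3 : ℕ) : ℝ)) :
    kh m M0 (M0 - 6) 5 = -(g * g1m m) ∧
    kh m M0 (M0 - 6) 6 = -(g * (((m : ℝ) + 2) * ((m : ℝ) - 9) / 3 + 10 + 4 * g1m m + g2m m)) ∧
    kh m M0 (M0 - 6) 7 = -(g * (2 * ((m : ℝ) + 2) * ((m : ℝ) + 3) * (2 * (m : ℝ) - 13) / 21 + 20 +
      10 * g1m m + 4 * g2m m)) := by
  obtain ⟨t, rfl⟩ : ∃ t, m = t + 3 := ⟨m - 3, by omega⟩
  have ht : (18 : ℝ) ≤ t := by
    have : 18 ≤ t := by omega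
    exact_mod_cast this
  have ht0 : (t : ℝ) ≠ 0 := by linarith
  have h1 := kh_one (m := t + 3) (i := 6) (M0 := M0) (by omega) (by norm_num) hM
  have h2 := kh_two (m := t + 3) (i := 6) (M0 := M0) (by omega) (by norm_num) hM 0
  have h3 := kh_two (m := t + 3) (i := 6) (M0 := M0) (by omega) (by norm_num) hM 1
  have e4 : (((t + 3 - 3 + 6 - 2).choose 5 : ℕ) : ℝ) = g * t := by
    rw [hg, show t + 3 - 3 = t by omega]
    field_simp
  have c1 : ((t + 5).choose 6 : ℝ) = ((t : ℝ) + 5) * (g * t) / 6 := by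
    have := Nat.add_one_mul_choose_eq (t + 4) 5
    have h : ((t : ℝ) + 4 + 1) * ((t + 4).choose 5 : ℝ) = ((t + 4 + 1).choose (5 + 1) : ℝ) * ((5 : ℝ) + 1) := by
      exact_mod_cast this
    rw [show t + 3 - 3 + 6 - 2 = t + 4 by omega] at e4
    rw [e4] at h
    rw [show t + 4 + 1 = t + 5 by omega, show 5 + 1 = 6 by norm_num] at h
    linarith
  have c2 : ((t + 6).choose 7 : ℝ) = ((t : ℝ) + 6) * (((t : ℝ) + 5) * (g * t) / 6) / 7 := by
    have := Nat.add_one_mul_choose_eq (t + 5) 6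
    have h : ((t : ℝ) + 5 + 1) * ((t + 5).choose 6 : ℝ) = ((t + 5 + 1).choose (6 + 1) : ℝ) * ((6 : ℝ) + 1) := by
      exact_mod_cast this
    rw [c1] at h
    rw [show t + 5 + 1 = t + 6 by omega, show 6 + 1 = 7 by norm_num] at h
    linarith
  refine ⟨?_, ?_, ?_⟩
  · rw [show 6 - 1 = 5 by norm_num] at h1
    rw [h1, ← hg]
    norm_num
  · rw [add_zero, show 6 - 1 = 5 by norm_num] at h2
    rw [h2, ← hg]
    unfold Abin
    rw [show t + 3 - 3 + 6 - 1 = t + 5 by omega, show t + 3 - 3 = t by omega, c1,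
      show Nat.choose (6 - 1) (6 - 2) = 5 by decide, show Nat.choose 6 (6 - 2) = 15 by decide,
      show Nat.choose (5 + 0) (0 + 2) = 10 by decide, show Nat.choose (6 - 2 + 0) (0 + 1) = 4 by decide,
      show Nat.choose (6 - 3 + 0) 0 = 1 by decide]
    push_cast
    field_simp
    ring
  · rw [show 6 + 1 = 7 by norm_num, show 6 - 1 = 5 by norm_num] at h3
    rw [h3, ← hg]
    unfold Abin
    rw [show t + 3 - 3 + 7 - 1 = t + 6 by omega, show t + 3 - 3 = t by omega, c2,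
      show Nat.choose (7 - 1) (6 - 2) = 15 by decide, show Nat.choose 7 (6 - 2) = 35 by decide,
      show Nat.choose (5 + 1) (1 + 2) = 20 by decide, show Nat.choose (6 - 2 + 1) (1 + 1) = 10 by decide,
      show Nat.choose (6 - 3 + 1) 1 = 4 by decide]
    push_cast
    field_simp
    ring

/-- the data of a class `(d, i)`, `e = i - d` -/
theorem data_e {m M d i e : ℕ} (hm : 21 ≤ m) (h3 : 3 * i ≤ m + 6) (he : 1 ≤ e) (hd : d + e = i)
    {B : Finset ℕ} (hB : B ∈ Lv (M + 1) (m + (m - 3))) (hT : tb B + d = M + m) {x : ℕ} (hx : x ∈ B)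
    (hxM : x + i = M + m) : tb B = x + e ∧ bx B x + 4 = d + i ∧ ln B x + i = m + 1 ∧
      blw B x + 1 = M ∧ ∀ z ∈ B, z ≠ x + e → z ≤ x := by
  have hTx : tb B = x + e := by omega
  have hTB : x + e ∈ B := by
    rw [← hTx]
    exact tb_memB ⟨x, hx⟩
  have hle : ∀ y ∈ B, y ≤ x + e := fun y hy => by
    rw [← hTx]
    exact mem_le_tb hy
  have hsec : ∀ z ∈ B, z ≠ x + e → z ≤ x := by
    intro z hz hne
    by_contra hcon
    push Not at hcon
    have h1 := hle z hz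
    have h2 := two_above hTB hz (by omega) hcon
    have h4 := pos_eq hB hx
    have h5 := upr_mul_ln hB hx
    have h6 : 3 * ln B x ≤ (upr B x + 1) * ln B x := Nat.mul_le_mul_right _ (by omega)
    omega
  have h1 := top_row hB hTB hle
  have h2 := second_row hB hTB hx (by omega) hsec
  have h4 := ln_add B x
  have hM : 1 ≤ M := by
    have h3 : 1 < B.card := Finset.one_lt_card.2 ⟨x, hx, x + e, hTB, by omega⟩
    have := (Lv_spec hB).1
    omega
  exact ⟨hTx, by omega, by omega, by omega, hsec⟩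

theorem erase_e {B : Finset ℕ} {x e : ℕ} (he : 1 ≤ e) (hTB : x + e ∈ B)
    (hsec : ∀ z ∈ B, z ≠ x + e → z ≤ x) : B.erase x = insert (x + e) (B.filter (· < x)) := by
  ext y
  simp only [mem_erase, mem_insert, mem_filter]
  constructor
  · rintro ⟨h1, h2⟩
    by_cases h4 : y = x + e
    · exact Or.inl h4
    · have := hsec y h2 h4
      exact Or.inr ⟨h2, by omega⟩
  · rintro (rfl | ⟨h1, h2⟩)
    · exact ⟨by omega, hTB⟩
    · exact ⟨by omega, h1⟩

theorem Rr_e {B : Finset ℕ} {x e : ℕ} (he : 1 ≤ e) (hTB : x + e ∈ B)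
    (hsec : ∀ z ∈ B, z ≠ x + e → z ≤ x) (p : ℕ) :
    -Rr B x p = (((p : ℝ) - e) / e) * Qx B x p := by
  unfold Rr Qx
  rw [erase_e he hTB hsec, prod_insert (by
    intro h
    have := (mem_filter.1 h).2
    omega)]
  have he' : (e : ℝ) ≠ 0 := by
    have : e ≠ 0 := by omega
    exact_mod_cast this
  push_cast
  rw [show ((x : ℝ) + p - (x + e)) / ((x : ℝ) - (x + e)) = -(((p : ℝ) - e) / e) by
    rw [show (x : ℝ) - (x + e) = -e by ring, div_neg]
    congr 2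
    ring]
  ring

theorem psi1 {m : ℕ} (hm : 21 ≤ m) :
    -((m : ℝ) - 21) ≤ 4 * (-g1m m) -
      5 * ((((m : ℝ) + 2) * ((m : ℝ) - 9) / 3 + 10 + 4 * g1m m + g2m m) / ((m : ℝ) + 1 / 2)) -
      6 * ((2 * ((m : ℝ) + 2) * ((m : ℝ) + 3) * (2 * (m : ℝ) - 13) / 21 + 20 + 10 * g1m m +
        4 * g2m m) / (((m : ℝ) + 1 / 2) * ((m : ℝ) + 3 / 2))) := by
  have h1 := cm_le (m := m) (by omega)
  have hm' : (21 : ℝ) ≤ m := by exact_mod_cast hm
  obtain ⟨s, hs⟩ : ∃ s, s = 1 - cm m := ⟨_, rfl⟩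
  have hs1 : 1 - 2 / (m : ℝ) ≤ s := by
    rw [hs]
    linarith
  have e1 : g1m m = -s * (3 * (m : ℝ) + 1) := by
    unfold g1m
    rw [hs]
  have e2 : g2m m = s * (2 * (m : ℝ) * (m + 1)) := by
    unfold g2m
    rw [hs]
  rw [e1, e2, ← sub_nonneg]
  obtain ⟨c1, hc1⟩ : ∃ c1 : ℝ, c1 = 2 * (m : ℝ) ^ 3 + 15 * (m : ℝ) ^ 2 + 244 * m + 93 := ⟨_, rfl⟩
  obtain ⟨c0, hc0⟩ : ∃ c0 : ℝ, c0 = -5 * ((((m : ℝ) + 2) * ((m : ℝ) - 9) / 3 + 10) * ((m : ℝ) + 3 / 2)) -
    6 * (2 * ((m : ℝ) + 2) * ((m : ℝ) + 3) * (2 * (m : ℝ) - 13) / 21 + 20) +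
    ((m : ℝ) - 21) * (((m : ℝ) + 1 / 2) * ((m : ℝ) + 3 / 2)) := ⟨_, rfl⟩
  have hc1' : 0 ≤ c1 := by
    rw [hc1]
    positivity
  have e3 : 4 * (-(-s * (3 * (m : ℝ) + 1))) -
      5 * ((((m : ℝ) + 2) * ((m : ℝ) - 9) / 3 + 10 + 4 * (-s * (3 * (m : ℝ) + 1)) +
        s * (2 * (m : ℝ) * (m + 1))) / ((m : ℝ) + 1 / 2)) -
      6 * ((2 * ((m : ℝ) + 2) * ((m : ℝ) + 3) * (2 * (m : ℝ) - 13) / 21 + 20 +
        10 * (-s * (3 * (m : ℝ) + 1)) + 4 * (s * (2 * (m : ℝ) * (m + 1)))) /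
        (((m : ℝ) + 1 / 2) * ((m : ℝ) + 3 / 2))) - -((m : ℝ) - 21) =
      (s * c1 + c0) / (((m : ℝ) + 1 / 2) * ((m : ℝ) + 3 / 2)) := by
    rw [hc1, hc0]
    field_simp
    ring
  rw [e3]
  refine div_nonneg ?_ (by positivity)
  have h2 := mul_le_mul_of_nonneg_right hs1 hc1'
  have h3 : 0 ≤ (1 - 2 / (m : ℝ)) * c1 + c0 := by
    have e4 : (1 - 2 / (m : ℝ)) * c1 + c0 = (((m : ℝ) - 2) * c1 + m * c0) / m := by
      field_simp
    rw [e4]
    refine div_nonneg ?_ (by positivity)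
    obtain ⟨u, hu⟩ : ∃ u : ℝ, u = (m : ℝ) - 21 := ⟨_, rfl⟩
    have hu0 : 0 ≤ u := by linarith
    rw [hc1, hc0, show (m : ℝ) = u + 21 by linarith]
    ring_nf
    positivity
  linarith

theorem psi2 {m : ℕ} (hm : 21 ≤ m) :
    -(m : ℝ) ≤ 3 / 2 * (-g1m m) -
      2 * ((((m : ℝ) + 2) * ((m : ℝ) - 9) / 3 + 10 + 4 * g1m m + g2m m) / ((m : ℝ) + 1 / 2)) -
      5 / 2 * ((2 * ((m : ℝ) + 2) * ((m : ℝ) + 3) * (2 * (m : ℝ) - 13) / 21 + 20 + 10 * g1m m +
        4 * g2m m) / (((m : ℝ) + 1 / 2) * ((m : ℝ) + 3 / 2))) := by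
  have h1 := cm_le (m := m) (by omega)
  have hm' : (21 : ℝ) ≤ m := by exact_mod_cast hm
  obtain ⟨s, hs⟩ : ∃ s, s = 1 - cm m := ⟨_, rfl⟩
  have hs1 : 1 - 2 / (m : ℝ) ≤ s := by
    rw [hs]
    linarith
  have e1 : g1m m = -s * (3 * (m : ℝ) + 1) := by
    unfold g1m
    rw [hs]
  have e2 : g2m m = s * (2 * (m : ℝ) * (m + 1)) := by
    unfold g2m
    rw [hs]
  rw [e1, e2, ← sub_nonneg]
  obtain ⟨c1, hc1⟩ : ∃ c1 : ℝ, c1 = 3 / 2 * (3 * (m : ℝ) + 1) * (((m : ℝ) + 1 / 2) * ((m : ℝ) + 3 / 2)) -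
    2 * ((-4 * (3 * (m : ℝ) + 1) + 2 * (m : ℝ) * (m + 1)) * ((m : ℝ) + 3 / 2)) -
    5 / 2 * (-10 * (3 * (m : ℝ) + 1) + 8 * (m : ℝ) * (m + 1)) := ⟨_, rfl⟩
  obtain ⟨c0, hc0⟩ : ∃ c0 : ℝ, c0 = -2 * ((((m : ℝ) + 2) * ((m : ℝ) - 9) / 3 + 10) * ((m : ℝ) + 3 / 2)) -
    5 / 2 * (2 * ((m : ℝ) + 2) * ((m : ℝ) + 3) * (2 * (m : ℝ) - 13) / 21 + 20) +
    (m : ℝ) * (((m : ℝ) + 1 / 2) * ((m : ℝ) + 3 / 2)) := ⟨_, rfl⟩
  have hc1' : 0 ≤ c1 := by
    obtain ⟨u, hu⟩ : ∃ u : ℝ, u = (m : ℝ) - 21 := ⟨_, rfl⟩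
    have hu0 : 0 ≤ u := by linarith
    rw [hc1, show (m : ℝ) = u + 21 by linarith]
    ring_nf
    positivity
  have e3 : 3 / 2 * (-(-s * (3 * (m : ℝ) + 1))) -
      2 * ((((m : ℝ) + 2) * ((m : ℝ) - 9) / 3 + 10 + 4 * (-s * (3 * (m : ℝ) + 1)) +
        s * (2 * (m : ℝ) * (m + 1))) / ((m : ℝ) + 1 / 2)) -
      5 / 2 * ((2 * ((m : ℝ) + 2) * ((m : ℝ) + 3) * (2 * (m : ℝ) - 13) / 21 + 20 +
        10 * (-s * (3 * (m : ℝ) + 1)) + 4 * (s * (2 * (m : ℝ) * (m + 1)))) /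
        (((m : ℝ) + 1 / 2) * ((m : ℝ) + 3 / 2))) - -(m : ℝ) =
      (s * c1 + c0) / (((m : ℝ) + 1 / 2) * ((m : ℝ) + 3 / 2)) := by
    rw [hc1, hc0]
    field_simp
    ring
  rw [e3]
  refine div_nonneg ?_ (by positivity)
  have h2 := mul_le_mul_of_nonneg_right hs1 hc1'
  have h3 : 0 ≤ (1 - 2 / (m : ℝ)) * c1 + c0 := by
    have e4 : (1 - 2 / (m : ℝ)) * c1 + c0 = (((m : ℝ) - 2) * c1 + m * c0) / m := by
      field_simp
    rw [e4]
    refine div_nonneg ?_ (by positivity)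
    obtain ⟨u, hu⟩ : ∃ u : ℝ, u = (m : ℝ) - 21 := ⟨_, rfl⟩
    have hu0 : 0 ≤ u := by linarith
    rw [hc1, hc0, show (m : ℝ) = u + 21 by linarith]
    ring_nf
    positivity
  linarith

/-- the numbers of the tail -/
theorem tail_num {m : ℕ} (hm : 21 ≤ m) :
    (muR m 6 * (SAR (yR m 6) (EyR m 6) 5 - Ek m 6 5 0 - Ek m 6 5 1) +
        Gc m 6 * ((((m : ℝ) + 2) / ((m : ℝ) + 1)) ^ (6 - 2) * ((5 : ℝ) + (((6 : ℕ) : ℝ) - 2) / ((m : ℝ) + 1)) -
          Fk m 6 5 0 - Fk m 6 5 1)) ≤ 11 / 5 ∧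
    (muR m 6 * (SAR (yR m 6) (EyR m 6) 4 - Ek m 6 4 0 - Ek m 6 4 1) +
        Gc m 6 * ((((m : ℝ) + 2) / ((m : ℝ) + 1)) ^ (6 - 2) * ((4 : ℝ) + (((6 : ℕ) : ℝ) - 2) / ((m : ℝ) + 1)) -
          Fk m 6 4 0 - Fk m 6 4 1)) ≤ 2 := by
  have hmR : (21 : ℝ) ≤ m := by exact_mod_cast hm
  obtain ⟨z, hz⟩ : ∃ z : ℝ, z = 1 / ((m : ℝ) + 1) := ⟨_, rfl⟩
  have hz0 : 0 ≤ z := by
    rw [hz]
    positivity
  have hz1 : z ≤ 1 / 22 := by
    rw [hz]
    exact one_div_le_one_div_of_le (by norm_num) (by linarith)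
  have ez1 : ((m : ℝ) + 2) / ((m : ℝ) + 1) = 1 + z := by
    rw [hz]
    field_simp
    ring
  have ez2 : (((6 : ℕ) : ℝ) - 2) / ((m : ℝ) + 1) = 4 * z := by
    rw [hz]
    push_cast
    ring
  have ez3 : 1 / ((m : ℝ) + 2) = z / (1 + z) := by
    rw [hz]
    field_simp
    ring
  have ez4 : z - z ^ 2 ≤ z / (1 + z) := by
    rw [le_div_iff₀ (by linarith)]
    nlinarith [mul_nonneg hz0 (mul_nonneg hz0 hz0)]
  have hy : yR m 6 = 1 + z := by
    unfold yR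
    rw [hz]
    push_cast
    norm_num
  have hE1 : EyR m 6 ≤ 2.7183 * (22 / 21) := by
    unfold EyR
    refine mul_le_mul_of_nonneg_left ?_ (by norm_num)
    rw [show 6 - 5 = 1 by norm_num, pow_one, div_le_div_iff₀ (by linarith) (by norm_num)]
    linarith
  have hE0 : 0 ≤ EyR m 6 := by
    unfold EyR
    positivity
  have hmu : muR m 6 = 1 := muR_one (by omega) (by omega)
  have hG : Gc m 6 ≤ 2.25 := by
    unfold Gc
    push_cast
    have a1 : 2 * ((m : ℝ) - 1) / ((m : ℝ) - 3) ≤ 2 + 4 / 18 := by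
      rw [div_le_iff₀ (by linarith)]
      linarith
    have a2 : ((6 : ℝ) - 1) * (6 - 2) / (2 * ((m : ℝ) - 3) * ((m : ℝ) + 1)) ≤ 20 / 792 := by
      have : (792 : ℝ) ≤ 2 * ((m : ℝ) - 3) * ((m : ℝ) + 1) := by nlinarith
      rw [show ((6 : ℝ) - 1) * (6 - 2) = 20 by norm_num]
      exact div_le_div_of_nonneg_left (by norm_num) (by norm_num) this
    have : (2 + 4 / 18 : ℝ) + 20 / 792 ≤ 2.25 := by norm_num
    linarith
  have hG0 : 0 ≤ Gc m 6 := Gc_nonneg (by omega) (by norm_num)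
  -- the exponential part
  have a2 : 1 / yR m 6 ≤ 1 := by
    rw [hy, div_le_one (by linarith)]
    linarith
  have a3 : 22 / 23 ≤ 1 / yR m 6 := by
    rw [hy, div_le_div_iff₀ (by norm_num) (by linarith)]
    linarith
  have a4 : EyR m 6 * (1 - 1 / yR m 6) ≤ 2.7183 * (22 / 21) * (1 / 23) :=
    mul_le_mul hE1 (by linarith) (by linarith) (by positivity)
  have a1 : yR m 6 * EyR m 6 ≤ 23 / 22 * (2.7183 * (22 / 21)) :=
    mul_le_mul (by rw [hy]; linarith) hE1 hE0 (by norm_num)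
  have b0 : ∀ D : ℝ, Ek m 6 D 0 = D * (1 + z) / 2 := by
    intro D
    unfold Ek
    rw [hy]
    norm_num [Nat.factorial]
  have b1 : ∀ D : ℝ, Ek m 6 D 1 = (D + 1) * (1 + z) ^ 2 / 3 := by
    intro D
    unfold Ek
    rw [hy]
    norm_num [Nat.factorial]
    ring
  have f0 : ∀ D : ℝ, Fk m 6 D 0 = D := by
    intro D
    unfold Fk
    norm_num
  have f1 : ∀ D : ℝ, Fk m 6 D 1 = 4 * (D + 1) * (z / (1 + z)) := by
    intro D
    unfold Fk
    rw [← ez3]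
    norm_num
    ring
  have hz2 : z ^ 2 ≤ 1 / 22 * z := by nlinarith
  have hzz : z ^ 2 ≤ 1 / 484 := by nlinarith
  have hz3 : z ^ 3 ≤ 1 / 10648 := by
    have : z ^ 3 = z ^ 2 * z := by ring
    rw [this]
    nlinarith [sq_nonneg z]
  have hz4 : z ^ 4 ≤ 1 / 234256 := by
    have : z ^ 4 = z ^ 2 * z ^ 2 := by ring
    rw [this]
    nlinarith [sq_nonneg z]
  have hz5 : z ^ 5 ≤ 1 / 234256 := by
    have : z ^ 5 = z ^ 4 * z := by ring
    rw [this]
    nlinarith [pow_nonneg hz0 4]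
  constructor
  · rw [hmu, one_mul, b0, b1, f0, f1, ez1, ez2]
    have p1 : SAR (yR m 6) (EyR m 6) 5 - 5 * (1 + z) / 2 - (5 + 1) * (1 + z) ^ 2 / 3 ≤ 1.85 := by
      unfold SAR
      have : 0 ≤ z ^ 2 := sq_nonneg z
      nlinarith
    have p2 : (1 + z) ^ (6 - 2) * ((5 : ℝ) + 4 * z) - 5 - 4 * (5 + 1) * (z / (1 + z)) ≤ 0.15 := by
      rw [show 6 - 2 = 4 by norm_num]
      nlinarith
    have p3 : Gc m 6 * ((1 + z) ^ (6 - 2) * ((5 : ℝ) + 4 * z) - 5 - 4 * (5 + 1) * (z / (1 + z))) ≤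
        2.25 * 0.15 := by
      refine (mul_le_mul_of_nonneg_left p2 hG0).trans ?_
      exact mul_le_mul_of_nonneg_right hG (by norm_num)
    refine (add_le_add p1 p3).trans ?_
    norm_num
  · rw [hmu, one_mul, b0, b1, f0, f1, ez1, ez2]
    have p1 : SAR (yR m 6) (EyR m 6) 4 - 4 * (1 + z) / 2 - (4 + 1) * (1 + z) ^ 2 / 3 ≤ 1.6 := by
      unfold SAR
      have : 0 ≤ z ^ 2 := sq_nonneg z
      nlinarith
    have p2 : (1 + z) ^ (6 - 2) * ((4 : ℝ) + 4 * z) - 4 - 4 * (4 + 1) * (z / (1 + z)) ≤ 0.15 := by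
      rw [show 6 - 2 = 4 by norm_num]
      nlinarith
    have p3 : Gc m 6 * ((1 + z) ^ (6 - 2) * ((4 : ℝ) + 4 * z) - 4 - 4 * (4 + 1) * (z / (1 + z))) ≤
        2.25 * 0.15 := by
      refine (mul_le_mul_of_nonneg_left p2 hG0).trans ?_
      exact mul_le_mul_of_nonneg_right hG (by norm_num)
    refine (add_le_add p1 p3).trans ?_
    norm_num

/-- the sum of the layer 6, split -/
theorem six_sum {m M A e : ℕ} (hm : 21 ≤ m) (hA : 7 ≤ A) (he : 1 ≤ e) (he4 : e ≤ 4) {B : Finset ℕ}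
    {x : ℕ} (hTB : x + e ∈ B) (hsec : ∀ z ∈ B, z ≠ x + e → z ≤ x) (hxM : x + 6 = M + m) :
    kh m (M + m) x 5 * (((5 - (e : ℝ)) / e) * Qx B x 5) +
      kh m (M + m) x 6 * (((6 - (e : ℝ)) / e) * Qx B x 6) +
      kh m (M + m) x 7 * (((7 - (e : ℝ)) / e) * Qx B x 7) -
      ∑ k ∈ range (A - 7), |kh m (M + m) x (6 + (2 + k)) * Rr B x (6 + (2 + k))| ≤
    -Cr m A (M + m) B x := by
  have hsum : -Cr m A (M + m) B x = ∑ p ∈ range (A + 1), kh m (M + m) x p * (-Rr B x p) := by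
    unfold Cr
    rw [← sum_neg_distrib]
    refine sum_congr rfl fun p _ => ?_
    ring
  have e1 : range (A + 1) = range (8 + (A - 7)) := by
    congr 1
    omega
  rw [hsum, e1, sum_range_add _ 8 (A - 7)]
  have e2 : ∑ p ∈ range 8, kh m (M + m) x p * (-Rr B x p) =
      kh m (M + m) x 5 * (((5 - (e : ℝ)) / e) * Qx B x 5) +
      kh m (M + m) x 6 * (((6 - (e : ℝ)) / e) * Qx B x 6) +
      kh m (M + m) x 7 * (((7 - (e : ℝ)) / e) * Qx B x 7) := by
    rw [sum_range_succ, sum_range_succ, sum_range_succ, sum_eq_zero]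
    · rw [Rr_e he hTB hsec 5, Rr_e he hTB hsec 6, Rr_e he hTB hsec 7]
      push_cast
      ring
    · intro p hp
      have := mem_range.1 hp
      rw [kh_lt (by omega), zero_mul]
  rw [e2]
  have e3 : -∑ k ∈ range (A - 7), |kh m (M + m) x (6 + (2 + k)) * Rr B x (6 + (2 + k))| ≤
      ∑ j ∈ range (A - 7), kh m (M + m) x (8 + j) * (-Rr B x (8 + j)) := by
    rw [← sum_neg_distrib]
    refine sum_le_sum fun k _ => ?_
    rw [show 6 + (2 + k) = 8 + k by omega]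
    have := le_abs_self (kh m (M + m) x (8 + k) * Rr B x (8 + k))
    linarith
  linarith

/-- the ratios of the layer 6 -/
theorem six_Q {m M : ℕ} (hm : 21 ≤ m) {B : Finset ℕ} {x r : ℕ} (hxM : x + 6 = M + m)
    (hr : bx B x = r) (hr7 : r ≤ 7) (h4 : blw B x + 1 = M) :
    Qx B x 6 ≤ Qx B x 5 / ((m : ℝ) + 1 / 2) ∧
    Qx B x 7 ≤ Qx B x 5 / (((m : ℝ) + 1 / 2) * ((m : ℝ) + 3 / 2)) := by
  have hmR : (21 : ℝ) ≤ m := by exact_mod_cast hm
  have hxR : (x : ℝ) + 6 = M + m := by exact_mod_cast hxM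
  have hbR : (blw B x : ℝ) + 1 = M := by exact_mod_cast h4
  have hrR : (bx B x : ℝ) ≤ 7 := by
    rw [hr]
    exact_mod_cast hr7
  have hr0 : (0 : ℝ) ≤ bx B x := Nat.cast_nonneg _
  have q1 : Qx B x 6 ≤ Qx B x 5 / ((m : ℝ) + 1 / 2) := by
    have h5 := Qx_succ_ge (B := B) (x := x) 5 (P := (m : ℝ) + 1) (by push_cast; linarith)
      (by linarith) (by linarith)
    rw [le_div_iff₀ (by linarith)]
    refine le_trans ?_ h5
    rw [mul_comm]
    refine mul_le_mul_of_nonneg_right ?_ (Qx_nonneg _ _ _)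
    have h6 : (bx B x : ℝ) / ((m : ℝ) + 1 + 1 - bx B x) ≤ 1 / 2 := by
      rw [div_le_div_iff₀ (by linarith) (by norm_num)]
      linarith
    linarith
  have q2 : Qx B x 7 ≤ Qx B x 6 / ((m : ℝ) + 3 / 2) := by
    have h5 := Qx_succ_ge (B := B) (x := x) 6 (P := (m : ℝ) + 2) (by push_cast; linarith)
      (by linarith) (by linarith)
    rw [le_div_iff₀ (by linarith)]
    refine le_trans ?_ h5
    rw [mul_comm]
    refine mul_le_mul_of_nonneg_right ?_ (Qx_nonneg _ _ _)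
    have h6 : (bx B x : ℝ) / ((m : ℝ) + 2 + 1 - bx B x) ≤ 1 / 2 := by
      rw [div_le_div_iff₀ (by linarith) (by norm_num)]
      linarith
    linarith
  refine ⟨q1, q2.trans ?_⟩
  rw [← div_div]
  exact div_le_div_of_nonneg_right q1 (by linarith)

/-- **the classes `(6 - e, 6)`, `e = 1, 2`** -/
theorem six_class {m M A e : ℕ} (hm : 21 ≤ m) (hA : 7 ≤ A) (he : e = 1 ∨ e = 2) {B : Finset ℕ}
    (hB : B ∈ Lv (M + 1) (m + (m - 3))) (hT : tb B + (6 - e) = M + m) {x : ℕ} (hx : x ∈ B)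
    (hxM : x + 6 = M + m) : -(1 / 20 : ℝ) ≤ -Cr m A (M + m) B x := by
  obtain ⟨hTx, h1, h2, h4, hsec⟩ := data_e (d := 6 - e) (i := 6) (e := e) hm (by omega) (by omega)
    (by omega) hB hT hx hxM
  have hTB : x + e ∈ B := by
    rw [← hTx]
    exact tb_memB ⟨x, hx⟩
  have hmR : (21 : ℝ) ≤ m := by exact_mod_cast hm
  have hxR : (x : ℝ) + 6 = M + m := by exact_mod_cast hxM
  have hbR : (blw B x : ℝ) + 1 = M := by exact_mod_cast h4
  have hS := six_sum (A := A) hm hA (by omega) (by omega) hTB hsec hxM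
  obtain ⟨q1, q2⟩ := six_Q hm hxM rfl (by omega) h4
  obtain ⟨g, hg⟩ : ∃ g : ℝ, g = ((m - 3 + 6 - 2).choose 5 : ℝ) / ((m - 3 : ℕ) : ℝ) := ⟨_, rfl⟩
  obtain ⟨v5, v6, v7⟩ := kh6_vals (M0 := M + m) hm (by omega) hg
  have n6 := kh_sign (i := 6) (M0 := M + m) hm (by omega) (by omega) (by omega) 0
  have n7 := kh_sign (i := 6) (M0 := M + m) hm (by omega) (by omega) (by omega) 1
  rw [show -(-1 : ℝ) ^ 6 = -1 by norm_num, add_zero] at n6
  rw [show -(-1 : ℝ) ^ 6 = -1 by norm_num, show 6 + 1 = 7 by norm_num] at n7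
  rw [show M + m - 6 = x by omega] at v5 v6 v7 n6 n7
  have hgR := gR_eq (m := m) (i := 6) (by omega) (by norm_num)
  rw [show 6 - 1 = 5 by norm_num, ← hg, show Nat.factorial 5 = 120 by decide,
    show m + 6 - 5 = m + 1 by omega] at hgR
  have hg0 : 0 ≤ g := by
    rw [hg]
    positivity
  have Q0 := Qx_nonneg B x 5
  have m1 : (0 : ℝ) < (m : ℝ) + 1 / 2 := by linarith
  have m2 : (0 : ℝ) < (m : ℝ) + 3 / 2 := by linarith
  -- the upper bound of the hook product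
  have hk : hk B x ≤ ((m - 5).factorial : ℝ) * (((m : ℝ) - 4) / ((m : ℝ) - 4 - bx B x)) := by
    rw [hk_eq, show ln B x = m - 5 by omega, hf_eq_hfr]
    refine mul_le_mul_of_nonneg_left ?_ (by positivity)
    have h5 : (x : ℝ) - blw B x + 1 = (m : ℝ) - 4 := by linarith
    refine hfr_le (B := B) (x := x) (z := x) le_rfl h5 ?_
    have : (bx B x : ℝ) ≤ 7 := by exact_mod_cast (by omega : bx B x ≤ 7)
    linarith
  have hrR : (bx B x : ℝ) + e = 8 := by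
    have : bx B x + e = 8 := by omega
    exact_mod_cast this
  have heR : (1 : ℝ) ≤ e := by
    exact_mod_cast (by omega : 1 ≤ e)
  have dd : (0 : ℝ) < (m : ℝ) - 4 - bx B x := by linarith
  have dd1 : (m : ℝ) - 11 ≤ (m : ℝ) - 4 - bx B x := by linarith
  have d3 : (0 : ℝ) < (m : ℝ) - 3 := by linarith
  have d4 : (0 : ℝ) < (m : ℝ) - 4 := by linarith
  have d11 : (0 : ℝ) < (m : ℝ) - 11 := by linarith
  have f1 : (0 : ℝ) < (m.factorial : ℝ) := by exact_mod_cast Nat.factorial_pos _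
  have f2 : (0 : ℝ) < ((m - 5).factorial : ℝ) := by exact_mod_cast Nat.factorial_pos _
  have hF : ((m - 3).factorial : ℝ) = ((m : ℝ) - 3) * (((m : ℝ) - 4) * ((m - 5).factorial : ℝ)) := by
    obtain ⟨n, rfl⟩ : ∃ n, m = n + 5 := ⟨m - 5, by omega⟩
    rw [show n + 5 - 3 = n + 2 by omega, show n + 5 - 5 = n by omega]
    simp only [Nat.factorial_succ]
    push_cast
    ring
  have hF4 : ((m - 4).factorial : ℝ) = ((m : ℝ) - 4) * ((m - 5).factorial : ℝ) := by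
    obtain ⟨n, rfl⟩ : ∃ n, m = n + 5 := ⟨m - 5, by omega⟩
    rw [show n + 5 - 4 = n + 1 by omega, show n + 5 - 5 = n by omega]
    simp only [Nat.factorial_succ]
    push_cast
    ring
  have hF2 : ((m + 1).factorial : ℝ) = ((m : ℝ) + 1) * (m.factorial : ℝ) := by
    simp only [Nat.factorial_succ]
    push_cast
    ring
  have hgQ : g * Qx B x 5 ≤ ((m : ℝ) + 1) / (120 * (((m : ℝ) - 3) * ((m : ℝ) - 11))) := by
    have hQ := Qx_le (B := B) (x := x) 5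
    rw [show x + 5 - blw B x = m by omega] at hQ
    have hQ2 : Qx B x 5 ≤ ((m - 5).factorial : ℝ) * (((m : ℝ) - 4) / ((m : ℝ) - 11)) /
        (m.factorial : ℝ) := by
      refine hQ.trans (div_le_div_of_nonneg_right (hk.trans ?_) f1.le)
      refine mul_le_mul_of_nonneg_left ?_ f2.le
      exact div_le_div_of_nonneg_left d4.le d11 dd1
    refine (mul_le_mul_of_nonneg_left hQ2 hg0).trans (le_of_eq ?_)
    rw [hgR, hF, hF2]
    push_cast
    field_simp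
  have hgQ0 : 0 ≤ g * Qx B x 5 := mul_nonneg hg0 Q0
  -- the eta
  have heta : etaR B x ≤ ((m - 5).factorial : ℝ) * (((m : ℝ) - 4) / ((m : ℝ) - 11)) / e := by
    have hda : da B x = e := by
      rw [da_second hTB (by omega) hsec]
      push_cast
      ring
    rw [etaR_eq_hk hx, hda]
    refine div_le_div_of_nonneg_right (hk.trans ?_) (by linarith)
    refine mul_le_mul_of_nonneg_left ?_ f2.le
    exact div_le_div_of_nonneg_left d4.le d11 dd1
  have hbe : bs m 6 * etaR B x ≤ ((m : ℝ) + 1) / (120 * ((m : ℝ) - 11)) / e := by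
    refine (mul_le_mul_of_nonneg_left heta (bs_nonneg m 6)).trans (le_of_eq ?_)
    unfold bs
    rw [show m + 6 - 5 = m + 1 by omega, show 6 - 1 = 5 by norm_num,
      show Nat.factorial 5 = 120 by decide, hF4, hF2]
    push_cast
    field_simp
  have hbe0 : 0 ≤ bs m 6 * etaR B x := mul_nonneg (bs_nonneg m 6) (etaR_nonneg B x)
  have hbe22 : ((m : ℝ) + 1) / (120 * ((m : ℝ) - 11)) ≤ 22 / 1200 := by
    rw [div_le_div_iff₀ (by positivity) (by norm_num)]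
    linarith
  obtain ⟨num1, num2⟩ := tail_num hm
  have hxe : x ∈ B.erase (tb B) := mem_erase.2 ⟨by omega, hx⟩
  refine le_trans ?_ hS
  rcases he with rfl | rfl
  · -- e = 1
    have hD : (5 : ℝ) = |(M : ℝ) + m - tb B| := by
      have : ((tb B : ℕ) : ℝ) + 5 = (M : ℝ) + m := by exact_mod_cast hT
      rw [show (M : ℝ) + m - tb B = 5 by linarith, abs_of_pos (by norm_num)]
    have ht := tail_le (i := 6) (by omega) (by norm_num) (by omega) hB hxe (by omega) hD (A - 7)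
    have ht2 : ∑ k ∈ range (A - 7), |kh m (M + m) x (6 + (2 + k)) * Rr B x (6 + (2 + k))| ≤
        22 / 1200 * (11 / 5) := by
      refine ht.trans ((mul_le_mul_of_nonneg_left num1 hbe0).trans ?_)
      refine mul_le_mul_of_nonneg_right (hbe.trans ?_) (by norm_num)
      push_cast
      rw [div_one]
      exact hbe22
    have t6 : kh m (M + m) x 6 * (5 * (Qx B x 5 / ((m : ℝ) + 1 / 2))) ≤
        kh m (M + m) x 6 * (5 * Qx B x 6) :=
      mul_le_mul_of_nonpos_left (by linarith) (by linarith)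
    have t7 : kh m (M + m) x 7 * (6 * (Qx B x 5 / (((m : ℝ) + 1 / 2) * ((m : ℝ) + 3 / 2)))) ≤
        kh m (M + m) x 7 * (6 * Qx B x 7) :=
      mul_le_mul_of_nonpos_left (by linarith) (by linarith)
    rw [v5]
    rw [v6] at t6 ⊢
    rw [v7] at t7 ⊢
    have hphi := mul_le_mul_of_nonneg_left (psi1 hm) hgQ0
    have key : g * Qx B x 5 * ((m : ℝ) - 21) ≤ 1 / 120 := by
      have : 0 ≤ (m : ℝ) - 21 := by linarith
      refine (mul_le_mul_of_nonneg_right hgQ this).trans ?_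
      rw [div_mul_eq_mul_div, div_le_div_iff₀ (by positivity) (by norm_num)]
      nlinarith
    have e9 : g * Qx B x 5 * (4 * (-g1m m) -
      5 * ((((m : ℝ) + 2) * ((m : ℝ) - 9) / 3 + 10 + 4 * g1m m + g2m m) / ((m : ℝ) + 1 / 2)) -
      6 * ((2 * ((m : ℝ) + 2) * ((m : ℝ) + 3) * (2 * (m : ℝ) - 13) / 21 + 20 + 10 * g1m m +
        4 * g2m m) / (((m : ℝ) + 1 / 2) * ((m : ℝ) + 3 / 2)))) =
      -(g * g1m m) * (4 * Qx B x 5) +
      -(g * (((m : ℝ) + 2) * ((m : ℝ) - 9) / 3 + 10 + 4 * g1m m + g2m m)) *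
        (5 * (Qx B x 5 / ((m : ℝ) + 1 / 2))) +
      -(g * (2 * ((m : ℝ) + 2) * ((m : ℝ) + 3) * (2 * (m : ℝ) - 13) / 21 + 20 + 10 * g1m m +
        4 * g2m m)) * (6 * (Qx B x 5 / (((m : ℝ) + 1 / 2) * ((m : ℝ) + 3 / 2)))) := by
      ring
    rw [e9] at hphi
    push_cast
    norm_num at ht2 ⊢
    linarith
  · -- e = 2
    have hD : (4 : ℝ) = |(M : ℝ) + m - tb B| := by
      have : ((tb B : ℕ) : ℝ) + 4 = (M : ℝ) + m := by exact_mod_cast hT
      rw [show (M : ℝ) + m - tb B = 4 by linarith, abs_of_pos (by norm_num)]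
    have ht := tail_le (i := 6) (by omega) (by norm_num) (by omega) hB hxe (by omega) hD (A - 7)
    have ht2 : ∑ k ∈ range (A - 7), |kh m (M + m) x (6 + (2 + k)) * Rr B x (6 + (2 + k))| ≤
        22 / 1200 / 2 * 2 := by
      refine ht.trans ((mul_le_mul_of_nonneg_left num2 hbe0).trans ?_)
      refine mul_le_mul_of_nonneg_right (hbe.trans ?_) (by norm_num)
      push_cast
      exact div_le_div_of_nonneg_right hbe22 (by norm_num)
    have t6 : kh m (M + m) x 6 * (2 * (Qx B x 5 / ((m : ℝ) + 1 / 2))) ≤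
        kh m (M + m) x 6 * (2 * Qx B x 6) :=
      mul_le_mul_of_nonpos_left (by linarith) (by linarith)
    have t7 : kh m (M + m) x 7 * (5 / 2 * (Qx B x 5 / (((m : ℝ) + 1 / 2) * ((m : ℝ) + 3 / 2)))) ≤
        kh m (M + m) x 7 * (5 / 2 * Qx B x 7) :=
      mul_le_mul_of_nonpos_left (by linarith) (by linarith)
    rw [v5]
    rw [v6] at t6 ⊢
    rw [v7] at t7 ⊢
    have hphi := mul_le_mul_of_nonneg_left (psi2 hm) hgQ0
    have key : g * Qx B x 5 * (m : ℝ) ≤ 1 / 40 := by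
      refine (mul_le_mul_of_nonneg_right hgQ (by linarith)).trans ?_
      rw [div_mul_eq_mul_div, div_le_div_iff₀ (by positivity) (by norm_num)]
      nlinarith
    have e9 : g * Qx B x 5 * (3 / 2 * (-g1m m) -
      2 * ((((m : ℝ) + 2) * ((m : ℝ) - 9) / 3 + 10 + 4 * g1m m + g2m m) / ((m : ℝ) + 1 / 2)) -
      5 / 2 * ((2 * ((m : ℝ) + 2) * ((m : ℝ) + 3) * (2 * (m : ℝ) - 13) / 21 + 20 + 10 * g1m m +
        4 * g2m m) / (((m : ℝ) + 1 / 2) * ((m : ℝ) + 3 / 2)))) =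
      -(g * g1m m) * (3 / 2 * Qx B x 5) +
      -(g * (((m : ℝ) + 2) * ((m : ℝ) - 9) / 3 + 10 + 4 * g1m m + g2m m)) *
        (2 * (Qx B x 5 / ((m : ℝ) + 1 / 2))) +
      -(g * (2 * ((m : ℝ) + 2) * ((m : ℝ) + 3) * (2 * (m : ℝ) - 13) / 21 + 20 + 10 * g1m m +
        4 * g2m m)) * (5 / 2 * (Qx B x 5 / (((m : ℝ) + 1 / 2) * ((m : ℝ) + 3 / 2)))) := by
      ring
    rw [e9] at hphi
    push_cast
    norm_num at ht2 ⊢
    linarith

/-- **the class (5,6)** -/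
theorem _root_.Pool.JM.C56 {m M A : ℕ} (hm : 21 ≤ m) (hA : 7 ≤ A) {B : Finset ℕ}
    (hB : B ∈ Lv (M + 1) (m + (m - 3))) (hT : tb B + 5 = M + m) {x : ℕ} (hx : x ∈ B)
    (hxM : x + 6 = M + m) : -(1 / 20 : ℝ) ≤ -Cr m A (M + m) B x :=
  six_class (e := 1) hm hA (Or.inl rfl) hB hT hx hxM

/-- **the class (4,6)** -/
theorem _root_.Pool.JM.C46 {m M A : ℕ} (hm : 21 ≤ m) (hA : 7 ≤ A) {B : Finset ℕ}
    (hB : B ∈ Lv (M + 1) (m + (m - 3))) (hT : tb B + 4 = M + m) {x : ℕ} (hx : x ∈ B)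
    (hxM : x + 6 = M + m) : -(1 / 20 : ℝ) ≤ -Cr m A (M + m) B x :=
  six_class (e := 2) hm hA (Or.inr rfl) hB hT hx hxM

end Pool.JM.H81
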