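import Pool.Agent.Work.MP_46fa68_81.C45
import Pool.Agent.Work.MP_46fa68_h5.Row

/-!
# MP_46fa68_co: U0, rows >= 2, the adjacent classes `(i-1, i)`: general lemmas, classes (6,7), (8,9)

`tb B = M + m - (i - 1)`, `x = M + m - i`.
-/

set_option autoImplicit false

open Finset

namespace Pool.JM.H81

/-- the data of an adjacent class -/
theorem adj_data {m M i : ℕ} (hm : 21 ≤ m) (_h3 : 3 * i ≤ m + 6) {B : Finset ℕ}
    (hB : B ∈ Lv (M + 1) (m + (m - 3))) (hT : tb B + i = M + m + 1) {x : ℕ} (hx : x ∈ B)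
    (hxM : x + i = M + m) : tb B = x + 1 ∧ bx B x + 5 = 2 * i ∧ ln B x + i = m + 1 ∧
      blw B x + 1 = M := by
  have hTx : tb B = x + 1 := by omega
  have hTB : x + 1 ∈ B := by
    rw [← hTx]
    exact H5.tb_memB ⟨x, hx⟩
  have hle : ∀ y ∈ B, y ≤ x + 1 := fun y hy => by
    rw [← hTx]
    exact H5.mem_le_tb hy
  have h1 := top_row hB hTB hle
  have h2 := second_row hB hTB hx (Nat.lt_succ_self x) (fun z hz hne => by
    have := hle z hz
    omega)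
  have h4 := ln_add B x
  have hM : 1 ≤ M := by
    have h3 : 1 < B.card := Finset.one_lt_card.2 ⟨x, hx, x + 1, hTB, by omega⟩
    have := (Lv_spec hB).1
    omega
  refine ⟨hTx, by omega, by omega, by omega⟩

/-- the hook product of the row -/
theorem adj_hk {m M i : ℕ} (hm : 21 ≤ m) (h3 : 3 * i ≤ m + 6) {B : Finset ℕ} {x : ℕ}
    (hxM : x + i = M + m) (h1 : bx B x + 5 = 2 * i) (h2 : ln B x + i = m + 1)
    (h4 : blw B x + 1 = M) :
    hk B x ≤ ((m + 1 - i).factorial : ℝ) * (((m : ℝ) + 2 - i) / ((m : ℝ) + 7 - 3 * i)) := by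
  have hxR : (x : ℝ) + i = M + m := by exact_mod_cast hxM
  have hbR : (blw B x : ℝ) + 1 = M := by exact_mod_cast h4
  have hbx : (bx B x : ℝ) + 5 = 2 * i := by exact_mod_cast h1
  have h3R : 3 * (i : ℝ) ≤ m + 6 := by exact_mod_cast h3
  have hmR : (21 : ℝ) ≤ m := by exact_mod_cast hm
  rw [hk_eq, show ln B x = m + 1 - i by omega, hf_eq_hfr]
  refine mul_le_mul_of_nonneg_left ?_ (by positivity)
  have h5 : (x : ℝ) - blw B x + 1 = (m : ℝ) + 2 - i := by linarith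
  have h6 := hfr_le (B := B) (x := x) (z := x) le_rfl h5 (by linarith)
  refine h6.trans (le_of_eq ?_)
  congr 1
  linarith

/-- the upper bound of `Q(i - 1)` -/
theorem adj_Q {m M i : ℕ} (hm : 21 ≤ m) (hi : 1 ≤ i) (h3 : 3 * i ≤ m + 6) {B : Finset ℕ} {x : ℕ}
    (hxM : x + i = M + m) (h1 : bx B x + 5 = 2 * i) (h2 : ln B x + i = m + 1)
    (h4 : blw B x + 1 = M) :
    Qx B x (i - 1) ≤ ((m + 1 - i).factorial : ℝ) * (((m : ℝ) + 2 - i) / ((m : ℝ) + 7 - 3 * i)) /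
      (m.factorial : ℝ) := by
  refine (Qx_le (B := B) (x := x) (i - 1)).trans ?_
  rw [show x + (i - 1) - blw B x = m by omega]
  exact div_le_div_of_nonneg_right (adj_hk hm h3 hxM h1 h2 h4) (by positivity)

/-- the binomial part is nonnegative -/
theorem Abin_nonneg {m i : ℕ} (hi : 3 ≤ i) (hmi : i + 3 ≤ m) (k : ℕ) :
    0 ≤ H5.Abin (m - 3) i (i + k) := by
  obtain ⟨t, rfl⟩ : ∃ t, m = t + 3 := ⟨m - 3, by omega⟩
  obtain ⟨j, rfl⟩ : ∃ j, i = j + 3 := ⟨i - 3, by omega⟩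
  have ht : (j : ℝ) + 3 ≤ t := by
    have : j + 3 ≤ t := by omega
    exact_mod_cast this
  have hj : (0 : ℝ) ≤ j := Nat.cast_nonneg j
  have hk : (0 : ℝ) ≤ k := Nat.cast_nonneg k
  have ht0 : (0 : ℝ) < t := by linarith
  unfold H5.Abin
  rw [show t + 3 - 3 = t by omega, show j + 3 + k - 1 = j + 2 + k by omega,
    show j + 3 - 2 = j + 1 by omega]
  refine mul_nonneg (Nat.cast_nonneg _) ?_
  have h1 := Nat.choose_mul_succ_eq (j + 2 + k) (j + 1)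
  rw [show j + 2 + k + 1 - (j + 1) = k + 2 by omega, show j + 2 + k + 1 = j + 3 + k by omega] at h1
  have h2 : ((j + 2 + k).choose (j + 1) : ℝ) * ((j : ℝ) + 3 + k) =
      ((j + 3 + k).choose (j + 1) : ℝ) * ((k : ℝ) + 2) := by
    exact_mod_cast h1
  have h3 : (0 : ℝ) ≤ ((j + 3 + k).choose (j + 1) : ℝ) := Nat.cast_nonneg _
  have e1 : ((j + 2 + k).choose (j + 1) : ℝ) =
      ((j + 3 + k).choose (j + 1) : ℝ) * (((k : ℝ) + 2) / ((j : ℝ) + 3 + k)) := by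
    field_simp
    linarith
  rw [e1]
  have e2 : ((j + 3 + k).choose (j + 1) : ℝ) * (((k : ℝ) + 2) / ((j : ℝ) + 3 + k)) -
      ((t : ℝ) + (j + 3 : ℕ) - 2) / (t * (((j + 3 : ℕ) : ℝ) - 1)) * ((j + 3 + k).choose (j + 1) : ℝ) =
      ((j + 3 + k).choose (j + 1) : ℝ) *
        ((((k : ℝ) + 2) / ((j : ℝ) + 3 + k)) - ((t : ℝ) + j + 1) / (t * ((j : ℝ) + 2))) := by
    push_cast
    rw [show (t : ℝ) + (j + 3) - 2 = t + j + 1 by ring, show (j : ℝ) + 3 - 1 = j + 2 by ring]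
    ring
  rw [e2]
  refine mul_nonneg h3 ?_
  rw [sub_nonneg, div_le_div_iff₀ (by positivity) (by positivity)]
  have h5 : 0 ≤ (t - (j + 3)) * ((j : ℝ) + 1) := mul_nonneg (by linarith) (by positivity)
  have h6 : 0 ≤ (k : ℝ) * ((t - 1) * (j + 1)) := by
    refine mul_nonneg hk (mul_nonneg (by linarith) (by positivity))
  nlinarith

theorem choose_le' (j k : ℕ) :
    ((j + 1 + k).choose (k + 1) : ℝ) ≤ ((j : ℝ) + 1) * ((j + k).choose k : ℝ) := by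
  have h1 := Nat.add_one_mul_choose_eq (j + k) k
  have h2 : ((j : ℝ) + k + 1) * ((j + k).choose k : ℝ) =
      ((j + k + 1).choose (k + 1) : ℝ) * ((k : ℝ) + 1) := by exact_mod_cast h1
  rw [show j + 1 + k = j + k + 1 by omega]
  have h0 : (0 : ℝ) ≤ ((j + k).choose k : ℝ) := Nat.cast_nonneg _
  have hk : (0 : ℝ) ≤ k := Nat.cast_nonneg k
  have hj : (0 : ℝ) ≤ j := Nat.cast_nonneg j
  have h5 : ((j + k + 1).choose (k + 1) : ℝ) * ((k : ℝ) + 1) ≤
      (((j : ℝ) + 1) * ((j + k).choose k : ℝ)) * ((k : ℝ) + 1) := by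
    rw [← h2]
    have : 0 ≤ (j : ℝ) * k * ((j + k).choose k : ℝ) := by positivity
    nlinarith
  exact le_of_mul_le_mul_right h5 (by positivity)

/-- the bracket is nonnegative -/
theorem brk_nonneg {m i : ℕ} (hm : 21 ≤ m) (hi : 3 ≤ i) (h3i : 3 * i ≤ m + 6) (k : ℕ) :
    0 ≤ ((i - 1 + k).choose (k + 2) : ℝ) + g1m m * ((i - 2 + k).choose (k + 1) : ℝ) +
      g2m m * ((i - 3 + k).choose k : ℝ) := by
  obtain ⟨j, rfl⟩ : ∃ j, i = j + 3 := ⟨i - 3, by omega⟩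
  rw [show j + 3 - 2 + k = j + 1 + k by omega, show j + 3 - 3 + k = j + k by omega]
  have hg1 := (H5.g1m_abs (m := m) (by omega)).1
  have hg2 := g2m_ge (m := m) (by omega)
  have hmR : (21 : ℝ) ≤ m := by exact_mod_cast hm
  have hjR : 3 * ((j : ℝ) + 3) ≤ m + 6 := by exact_mod_cast h3i
  have h4 := choose_le' j k
  have h0 : (0 : ℝ) ≤ ((j + k).choose k : ℝ) := Nat.cast_nonneg _
  have h3 : (0 : ℝ) ≤ ((j + 3 - 1 + k).choose (k + 2) : ℝ) := Nat.cast_nonneg _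
  have h5 : (0 : ℝ) ≤ ((j + 1 + k).choose (k + 1) : ℝ) := Nat.cast_nonneg _
  have h6 : -(3 * (m : ℝ) - 2) ≤ g1m m := (abs_le.1 hg1).1
  have hj : (0 : ℝ) ≤ j := Nat.cast_nonneg j
  have h8 : (0 : ℝ) ≤ 3 * (m : ℝ) - 2 := by linarith
  have h7 : -(3 * (m : ℝ) - 2) * (((j : ℝ) + 1) * ((j + k).choose k : ℝ)) ≤
      g1m m * ((j + 1 + k).choose (k + 1) : ℝ) := by
    calc -(3 * (m : ℝ) - 2) * (((j : ℝ) + 1) * ((j + k).choose k : ℝ))
        ≤ -(3 * (m : ℝ) - 2) * ((j + 1 + k).choose (k + 1) : ℝ) := by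
          have := mul_le_mul_of_nonneg_left h4 h8
          linarith
      _ ≤ _ := mul_le_mul_of_nonneg_right h6 h5
  have h9 : 2 * ((m : ℝ) - 2) * ((m : ℝ) + 1) * ((j + k).choose k : ℝ) ≤
      g2m m * ((j + k).choose k : ℝ) := mul_le_mul_of_nonneg_right hg2 h0
  have h10 : 0 ≤ (2 * ((m : ℝ) - 2) * ((m : ℝ) + 1) - (3 * (m : ℝ) - 2) * ((j : ℝ) + 1)) *
      ((j + k).choose k : ℝ) := by
    refine mul_nonneg ?_ h0
    have : (3 * (m : ℝ) - 2) * (3 * ((j : ℝ) + 1)) ≤ (3 * (m : ℝ) - 2) * m :=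
      mul_le_mul_of_nonneg_left (by linarith) h8
    nlinarith
  linarith

theorem gR_nonneg (m i : ℕ) :
    (0 : ℝ) ≤ ((m - 3 + i - 2).choose (i - 1) : ℝ) / ((m - 3 : ℕ) : ℝ) := by positivity

/-- **the sign of the kernel for `n ≥ 2`** -/
theorem kh_sign {m i M0 : ℕ} (hm : 21 ≤ m) (hi : 3 ≤ i) (h3i : 3 * i ≤ m + 6) (hM : i ≤ M0)
    (k : ℕ) : 0 ≤ -(-1) ^ i * kh m M0 (M0 - i) (i + k) := by
  rw [H5.kh_two (by omega) hi hM k]
  have h1 : (-(-1 : ℝ) ^ i) * (-(-1) ^ i) = 1 := by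
    rw [neg_mul_neg, ← mul_pow]
    norm_num
  rw [← mul_assoc, h1, one_mul]
  exact add_nonneg (Abin_nonneg hi (by omega) k)
    (mul_nonneg (gR_nonneg m i) (brk_nonneg hm hi h3i k))

/-- the first terms of the sum, for odd `i` -/
theorem adj_odd {m M A i N : ℕ} (hm : 21 ≤ m) (hi : 3 ≤ i) (h3i : 3 * i ≤ m + 6) (hodd : Odd i)
    (hA : i - 1 + N ≤ A) {B : Finset ℕ} {x : ℕ} (hx : x ∈ B) (hxM : x + i = M + m)
    (hTx : tb B = x + 1) :
    ∑ k ∈ range (N + 1), kh m (M + m) x (i - 1 + k) *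
      ((((i - 1 + k : ℕ) : ℝ) - 1) * Qx B x (i - 1 + k)) ≤ -Cr m A (M + m) B x := by
  have hsum : -Cr m A (M + m) B x = ∑ p ∈ range (A + 1), kh m (M + m) x p *
      (((p : ℝ) - 1) * Qx B x p) := by
    unfold Cr
    rw [← sum_neg_distrib]
    refine sum_congr rfl fun p _ => ?_
    rw [← Rr_adj hTx hx p]
    ring
  have e : range (A + 1) = range ((i - 1 + (N + 1)) + (A - (i - 1 + N))) := by
    congr 1
    omega
  rw [hsum, e, sum_range_add _ (i - 1 + (N + 1)) (A - (i - 1 + N)), sum_range_add _ (i - 1) (N + 1)]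
  have e2 : ∑ p ∈ range (i - 1), kh m (M + m) x p * (((p : ℝ) - 1) * Qx B x p) = 0 := by
    refine sum_eq_zero fun p hp => ?_
    have := mem_range.1 hp
    rw [kh_lt (by omega), zero_mul]
  have e3 : 0 ≤ ∑ j ∈ range (A - (i - 1 + N)), kh m (M + m) x (i - 1 + (N + 1) + j) *
      ((((i - 1 + (N + 1) + j : ℕ) : ℝ) - 1) * Qx B x (i - 1 + (N + 1) + j)) := by
    refine sum_nonneg fun j _ => ?_
    have h3 := kh_sign (M0 := M + m) hm hi h3i (by omega) (N + j)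
    rw [hodd.neg_one_pow, neg_neg, one_mul, show M + m - i = x by omega,
      show i + (N + j) = i - 1 + (N + 1) + j by omega] at h3
    refine mul_nonneg h3 (mul_nonneg ?_ (Qx_nonneg _ _ _))
    have : (1 : ℝ) ≤ ((i - 1 + (N + 1) + j : ℕ) : ℝ) := by
      exact_mod_cast (by omega : 1 ≤ i - 1 + (N + 1) + j)
    linarith
  rw [e2]
  linarith

/-- **the class (8,9)** -/
theorem _root_.Pool.JM.C89 {m M A : ℕ} (hm : 21 ≤ m) (hA : 8 ≤ A) {B : Finset ℕ}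
    (hB : B ∈ Lv (M + 1) (m + (m - 3))) (hT : tb B + 8 = M + m) {x : ℕ} (hx : x ∈ B)
    (hxM : x + 9 = M + m) : -(1 / 20 : ℝ) ≤ -Cr m A (M + m) B x := by
  obtain ⟨hTx, h1, h2, h4⟩ := adj_data (i := 9) hm (by omega) hB (by omega) hx hxM
  have hQ := adj_Q (i := 9) hm (by omega) (by omega) hxM h1 h2 h4
  have hS := adj_odd (i := 9) (N := 0) (A := A) hm (by omega) (by omega) (by decide) (by omega) hx
    hxM hTx
  rw [zero_add, sum_range_one, add_zero, show 9 - 1 = 8 by norm_num] at hS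
  rw [show 9 - 1 = 8 by norm_num] at hQ
  have hk := H5.kh_one (m := m) (i := 9) (M0 := M + m) (by omega) (by norm_num) (by omega)
  rw [H5.gR_eq (by omega) (by norm_num), show M + m - 9 = x by omega,
    show 9 - 1 = 8 by norm_num, show Nat.factorial 8 = 40320 by decide,
    show m + 9 - 5 = m + 4 by omega] at hk
  refine le_trans ?_ hS
  rw [hk]
  have hg := H5.g1m_abs (m := m) (by omega)
  have hg1 := (abs_le.1 hg.1).1
  have hmR : (21 : ℝ) ≤ m := by exact_mod_cast hm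
  have Q0 := Qx_nonneg B x 8
  obtain ⟨G, hG⟩ : ∃ G : ℝ, G = ((m + 4).factorial : ℝ) / (40320 * ((m - 3).factorial : ℝ)) := ⟨_, rfl⟩
  have hG0 : 0 ≤ G := by
    rw [hG]
    positivity
  have e1 : -(-1 : ℝ) ^ 9 * (((m + 4).factorial : ℝ) / (((40320 : ℕ) : ℝ) * ((m - 3).factorial : ℝ)) *
      g1m m) * ((((8 : ℕ) : ℝ) - 1) * Qx B x 8) = -(7 * (-g1m m) * (G * Qx B x 8)) := by
    rw [hG]
    push_cast
    ring
  rw [e1]
  have hF : ((m - 3).factorial : ℝ) = ((m : ℝ) - 3) * (((m : ℝ) - 4) * (((m : ℝ) - 5) *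
      (((m : ℝ) - 6) * (((m : ℝ) - 7) * ((m - 8).factorial : ℝ))))) := by
    obtain ⟨n, rfl⟩ : ∃ n, m = n + 8 := ⟨m - 8, by omega⟩
    rw [show n + 8 - 3 = n + 5 by omega, show n + 8 - 8 = n by omega]
    simp only [Nat.factorial_succ]
    push_cast
    ring
  have hF2 : ((m + 4).factorial : ℝ) = ((m : ℝ) + 4) * (((m : ℝ) + 3) * (((m : ℝ) + 2) *
      (((m : ℝ) + 1) * (m.factorial : ℝ)))) := by
    simp only [Nat.factorial_succ]
    push_cast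
    ring
  have f1 : (0 : ℝ) < (m.factorial : ℝ) := by exact_mod_cast Nat.factorial_pos _
  have f2 : (0 : ℝ) < ((m - 8).factorial : ℝ) := by exact_mod_cast Nat.factorial_pos _
  have d3 : (0 : ℝ) < (m : ℝ) - 3 := by linarith
  have d4 : (0 : ℝ) < (m : ℝ) - 4 := by linarith
  have d5 : (0 : ℝ) < (m : ℝ) - 5 := by linarith
  have d6 : (0 : ℝ) < (m : ℝ) - 6 := by linarith
  have d7 : (0 : ℝ) < (m : ℝ) - 7 := by linarith
  have d20 : (0 : ℝ) < (m : ℝ) - 20 := by linarith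
  have hGQ : G * Qx B x 8 ≤ ((m : ℝ) + 4) * ((m : ℝ) + 3) * ((m : ℝ) + 2) * ((m : ℝ) + 1) /
      (40320 * (((m : ℝ) - 3) * ((m : ℝ) - 4) * ((m : ℝ) - 5) * ((m : ℝ) - 6) * ((m : ℝ) - 20))) := by
    refine (mul_le_mul_of_nonneg_left hQ hG0).trans (le_of_eq ?_)
    rw [hG, hF, hF2, show m + 1 - 9 = m - 8 by omega]
    push_cast
    rw [show (m : ℝ) + 2 - 9 = m - 7 by ring, show (m : ℝ) + 7 - 3 * 9 = m - 20 by ring]
    field_simp
  have hGQ0 : 0 ≤ G * Qx B x 8 := mul_nonneg hG0 Q0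
  have h7 : 7 * (-g1m m) * (G * Qx B x 8) ≤ 7 * (3 * (m : ℝ) - 2) *
      (((m : ℝ) + 4) * ((m : ℝ) + 3) * ((m : ℝ) + 2) * ((m : ℝ) + 1) /
      (40320 * (((m : ℝ) - 3) * ((m : ℝ) - 4) * ((m : ℝ) - 5) * ((m : ℝ) - 6) * ((m : ℝ) - 20)))) := by
    refine mul_le_mul (by linarith) hGQ hGQ0 (by linarith)
  have h8 : 7 * (3 * (m : ℝ) - 2) *
      (((m : ℝ) + 4) * ((m : ℝ) + 3) * ((m : ℝ) + 2) * ((m : ℝ) + 1) /
      (40320 * (((m : ℝ) - 3) * ((m : ℝ) - 4) * ((m : ℝ) - 5) * ((m : ℝ) - 6) * ((m : ℝ) - 20)))) ≤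
      1 / 20 := by
    rw [← mul_div_assoc, div_le_div_iff₀ (by positivity) (by norm_num)]
    obtain ⟨u, hu⟩ : ∃ u : ℝ, u = (m : ℝ) - 21 := ⟨_, rfl⟩
    have hu0 : 0 ≤ u := by linarith
    rw [show (m : ℝ) = u + 21 by linarith]
    have : 0 ≤ 1 * (40320 * ((u + 21 - 3) * (u + 21 - 4) * (u + 21 - 5) * (u + 21 - 6) * (u + 21 - 20))) -
        7 * (3 * (u + 21) - 2) * ((u + 21 + 4) * (u + 21 + 3) * (u + 21 + 2) * (u + 21 + 1)) * 20 := by
      ring_nf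
      positivity
    linarith
  linarith

/-- the value `n = 2`, `i = 7` -/
theorem kh7_val {m M0 : ℕ} (hm : 21 ≤ m) (hM : 7 ≤ M0) {g : ℝ}
    (hg : g = ((m - 3 + 7 - 2).choose 6 : ℝ) / ((m - 3 : ℕ) : ℝ)) :
    kh m M0 (M0 - 7) 6 = g * g1m m ∧
    kh m M0 (M0 - 7) 7 = g * (5 * ((m : ℝ) + 3) * ((m : ℝ) - 10) / 14 + 15 + 5 * g1m m + g2m m) := by
  obtain ⟨t, rfl⟩ : ∃ t, m = t + 3 := ⟨m - 3, by omega⟩
  have ht : (18 : ℝ) ≤ t := by
    have : 18 ≤ t := by omega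
    exact_mod_cast this
  have ht0 : (t : ℝ) ≠ 0 := by linarith
  have h1 := H5.kh_one (m := t + 3) (i := 7) (M0 := M0) (by omega) (by norm_num) hM
  have h2 := H5.kh_two (m := t + 3) (i := 7) (M0 := M0) (by omega) (by norm_num) hM 0
  have e4 : (((t + 3 - 3 + 7 - 2).choose 6 : ℕ) : ℝ) = g * t := by
    rw [hg, show t + 3 - 3 = t by omega]
    field_simp
  have c1 : ((t + 6).choose 7 : ℝ) = ((t : ℝ) + 6) * (g * t) / 7 := by
    have := Nat.add_one_mul_choose_eq (t + 5) 6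
    have h : ((t : ℝ) + 5 + 1) * ((t + 5).choose 6 : ℝ) = ((t + 5 + 1).choose (6 + 1) : ℝ) * ((6 : ℝ) + 1) := by
      exact_mod_cast this
    rw [show t + 3 - 3 + 7 - 2 = t + 5 by omega] at e4
    rw [e4] at h
    rw [show t + 5 + 1 = t + 6 by omega, show 6 + 1 = 7 by norm_num] at h
    linarith
  refine ⟨?_, ?_⟩
  · rw [show 7 - 1 = 6 by norm_num] at h1
    rw [h1, ← hg]
    norm_num
  · rw [add_zero, show 7 - 1 = 6 by norm_num] at h2
    rw [h2, ← hg]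
    unfold H5.Abin
    rw [show t + 3 - 3 + 7 - 1 = t + 6 by omega, show t + 3 - 3 = t by omega, c1,
      show Nat.choose (7 - 1) (7 - 2) = 6 by decide, show Nat.choose 7 (7 - 2) = 21 by decide,
      show Nat.choose (6 + 0) (0 + 2) = 15 by decide, show Nat.choose (7 - 2 + 0) (0 + 1) = 5 by decide,
      show Nat.choose (7 - 3 + 0) 0 = 1 by decide]
    push_cast
    field_simp
    ring

theorem phi7_ge {m : ℕ} (hm : 21 ≤ m) :
    -(3 * (m : ℝ) + 63) ≤ 5 * g1m m +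
      6 * ((5 * ((m : ℝ) + 3) * ((m : ℝ) - 10) / 14 + 15 + 5 * g1m m + g2m m) / ((m : ℝ) + 1)) := by
  have h1 := cm_ge (m := m) (by omega)
  have hm' : (21 : ℝ) ≤ m := by exact_mod_cast hm
  obtain ⟨s, hs⟩ : ∃ s, s = 1 - cm m := ⟨_, rfl⟩
  have h0 : 0 ≤ 1 / (m : ℝ) := by positivity
  have hs1 : s ≤ 1 := by
    rw [hs]
    linarith
  have e1 : g1m m = -s * (3 * (m : ℝ) + 1) := by
    unfold g1m
    rw [hs]
  have e2 : g2m m = s * (2 * (m : ℝ) * (m + 1)) := by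
    unfold g2m
    rw [hs]
  rw [e1, e2, ← sub_nonneg]
  have e3 : 5 * (-s * (3 * (m : ℝ) + 1)) +
      6 * ((5 * ((m : ℝ) + 3) * ((m : ℝ) - 10) / 14 + 15 + 5 * (-s * (3 * (m : ℝ) + 1)) +
        s * (2 * (m : ℝ) * (m + 1))) / ((m : ℝ) + 1)) - -(3 * (m : ℝ) + 63) =
      (s * (-3 * (m : ℝ) ^ 2 - 98 * m - 35) +
        (15 / 7 * ((m : ℝ) + 3) * ((m : ℝ) - 10) + 90 + (3 * (m : ℝ) + 63) * ((m : ℝ) + 1))) /
        ((m : ℝ) + 1) := by
    field_simp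
    ring
  rw [e3]
  refine div_nonneg ?_ (by positivity)
  have h2 : -3 * (m : ℝ) ^ 2 - 98 * m - 35 ≤ s * (-3 * (m : ℝ) ^ 2 - 98 * m - 35) := by
    have h3 : 0 ≤ 3 * (m : ℝ) ^ 2 + 98 * m + 35 := by positivity
    nlinarith [mul_nonneg (by linarith : (0 : ℝ) ≤ 1 - s) h3]
  have h4 : 0 ≤ (m : ℝ) - 21 := by linarith
  nlinarith [mul_nonneg h4 h4]

/-- **the class (6,7)** -/
theorem _root_.Pool.JM.C67 {m M A : ℕ} (hm : 21 ≤ m) (hA : 7 ≤ A) {B : Finset ℕ}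
    (hB : B ∈ Lv (M + 1) (m + (m - 3))) (hT : tb B + 6 = M + m) {x : ℕ} (hx : x ∈ B)
    (hxM : x + 7 = M + m) : -(1 / 20 : ℝ) ≤ -Cr m A (M + m) B x := by
  obtain ⟨hTx, h1, h2, h4⟩ := adj_data (i := 7) hm (by omega) hB (by omega) hx hxM
  have hQ := adj_Q (i := 7) hm (by omega) (by omega) hxM h1 h2 h4
  have hS := adj_odd (i := 7) (N := 1) (A := A) hm (by omega) (by omega) (by decide) (by omega) hx
    hxM hTx
  rw [sum_range_succ, sum_range_one, add_zero, show 7 - 1 = 6 by norm_num,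
    show 6 + 1 = 7 by norm_num] at hS
  rw [show 7 - 1 = 6 by norm_num] at hQ
  obtain ⟨g, hg⟩ : ∃ g : ℝ, g = ((m - 3 + 7 - 2).choose 6 : ℝ) / ((m - 3 : ℕ) : ℝ) := ⟨_, rfl⟩
  obtain ⟨v6, v7⟩ := kh7_val (M0 := M + m) hm (by omega) hg
  have n7 := kh_sign (i := 7) (M0 := M + m) hm (by omega) (by omega) (by omega) 0
  rw [show -(-1 : ℝ) ^ 7 = 1 by norm_num, one_mul, add_zero] at n7
  rw [show M + m - 7 = x by omega] at v6 v7 n7
  have hgR := H5.gR_eq (m := m) (i := 7) (by omega) (by norm_num)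
  rw [show 7 - 1 = 6 by norm_num, ← hg, show Nat.factorial 6 = 720 by decide,
    show m + 7 - 5 = m + 2 by omega] at hgR
  have hg0 : 0 ≤ g := by
    rw [hg]
    positivity
  refine le_trans ?_ hS
  have hmR : (21 : ℝ) ≤ m := by exact_mod_cast hm
  have Q0 := Qx_nonneg B x 6
  have q7 : Qx B x 6 / ((m : ℝ) + 1) ≤ Qx B x 7 := by
    rw [div_le_iff₀ (by linarith)]
    have h5 := Qx_succ (B := B) (x := x) 6
    have hxR : (x : ℝ) + 7 = M + m := by exact_mod_cast hxM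
    have hbR : (blw B x : ℝ) + 1 = M := by exact_mod_cast h4
    have h6 : (x : ℝ) + (6 : ℕ) + 1 - blw B x = (m : ℝ) + 1 := by
      push_cast
      linarith
    rw [h6] at h5
    linarith
  rw [v6]
  have t7 : kh m (M + m) x 7 * (6 * (Qx B x 6 / ((m : ℝ) + 1))) ≤
      kh m (M + m) x 7 * ((((7 : ℕ) : ℝ) - 1) * Qx B x 7) := by
    refine mul_le_mul_of_nonneg_left ?_ n7
    push_cast
    linarith
  rw [v7] at t7 ⊢
  have hphi := mul_le_mul_of_nonneg_left (phi7_ge hm) (mul_nonneg hg0 Q0)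
  have e9 : g * Qx B x 6 * (5 * g1m m +
      6 * ((5 * ((m : ℝ) + 3) * ((m : ℝ) - 10) / 14 + 15 + 5 * g1m m + g2m m) / ((m : ℝ) + 1))) =
      g * g1m m * ((((6 : ℕ) : ℝ) - 1) * Qx B x 6) +
      g * (5 * ((m : ℝ) + 3) * ((m : ℝ) - 10) / 14 + 15 + 5 * g1m m + g2m m) *
        (6 * (Qx B x 6 / ((m : ℝ) + 1))) := by
    push_cast
    ring
  rw [e9] at hphi
  have hF : ((m - 3).factorial : ℝ) = ((m : ℝ) - 3) * (((m : ℝ) - 4) * (((m : ℝ) - 5) *
      ((m - 6).factorial : ℝ))) := by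
    obtain ⟨n, rfl⟩ : ∃ n, m = n + 6 := ⟨m - 6, by omega⟩
    rw [show n + 6 - 3 = n + 3 by omega, show n + 6 - 6 = n by omega]
    simp only [Nat.factorial_succ]
    push_cast
    ring
  have hF2 : ((m + 2).factorial : ℝ) = ((m : ℝ) + 2) * (((m : ℝ) + 1) * (m.factorial : ℝ)) := by
    simp only [Nat.factorial_succ]
    push_cast
    ring
  have f1 : (0 : ℝ) < (m.factorial : ℝ) := by exact_mod_cast Nat.factorial_pos _
  have f2 : (0 : ℝ) < ((m - 6).factorial : ℝ) := by exact_mod_cast Nat.factorial_pos _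
  have d3 : (0 : ℝ) < (m : ℝ) - 3 := by linarith
  have d4 : (0 : ℝ) < (m : ℝ) - 4 := by linarith
  have d5 : (0 : ℝ) < (m : ℝ) - 5 := by linarith
  have d14 : (0 : ℝ) < (m : ℝ) - 14 := by linarith
  have hGQ : g * Qx B x 6 ≤ ((m : ℝ) + 2) * ((m : ℝ) + 1) /
      (720 * (((m : ℝ) - 3) * ((m : ℝ) - 4) * ((m : ℝ) - 14))) := by
    refine (mul_le_mul_of_nonneg_left hQ hg0).trans (le_of_eq ?_)
    rw [hgR, hF, hF2, show m + 1 - 7 = m - 6 by omega]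
    push_cast
    rw [show (m : ℝ) + 2 - 7 = m - 5 by ring, show (m : ℝ) + 7 - 3 * 7 = m - 14 by ring]
    field_simp
  have h8 : g * Qx B x 6 * (3 * (m : ℝ) + 63) ≤ 1 / 20 := by
    refine (mul_le_mul_of_nonneg_right hGQ (by positivity)).trans ?_
    rw [div_mul_eq_mul_div, div_le_div_iff₀ (by positivity) (by norm_num)]
    obtain ⟨u, hu⟩ : ∃ u : ℝ, u = (m : ℝ) - 21 := ⟨_, rfl⟩
    have hu0 : 0 ≤ u := by linarith
    rw [show (m : ℝ) = u + 21 by linarith]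
    have : 0 ≤ 1 * (720 * ((u + 21 - 3) * (u + 21 - 4) * (u + 21 - 14))) -
        (u + 21 + 2) * (u + 21 + 1) * (3 * (u + 21) + 63) * 20 := by
      ring_nf
      positivity
    linarith
  linarith

end Pool.JM.H81
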