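import Pool.Agent.Work.MP_46fa68_h5.RowB
import Pool.Agent.Work.MP_46fa68_11.Hook2

/-!
# MP_46fa68_co: U0, rows >= 2, the class (4,5): `tb B = M + m - 4`, `x = M + m - 5`

`C45 : 21 <= m -> 6 <= A -> ... -> -(1/20) <= -Cr m A (M + m) B x`.
-/

set_option autoImplicit false

open Finset

namespace Pool.JM.H81

/-- the ratio of the bead `x` without the top bead -/
noncomputable def Qx (B : Finset ℕ) (x p : ℕ) : ℝ :=
  (∏ y ∈ B.filter (· < x), (((x : ℝ) + p - y) / ((x : ℝ) - y))) *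
    ((x.factorial : ℝ) / ((x + p).factorial : ℝ))

theorem erase_adj {B : Finset ℕ} {x : ℕ} (hT : tb B = x + 1) (hx : x ∈ B) :
    B.erase x = insert (x + 1) (B.filter (· < x)) := by
  have hTB : x + 1 ∈ B := by
    rw [← hT]
    exact H5.tb_memB ⟨x, hx⟩
  ext y
  simp only [mem_erase, mem_insert, mem_filter]
  constructor
  · rintro ⟨h1, h2⟩
    have h3 : y ≤ x + 1 := by
      rw [← hT]
      exact H5.mem_le_tb h2
    by_cases h4 : y = x + 1
    · exact Or.inl h4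
    · exact Or.inr ⟨h2, by omega⟩
  · rintro (rfl | ⟨h1, h2⟩)
    · exact ⟨by omega, hTB⟩
    · exact ⟨by omega, h1⟩

theorem Rr_adj {B : Finset ℕ} {x : ℕ} (hT : tb B = x + 1) (hx : x ∈ B) (p : ℕ) :
    -Rr B x p = ((p : ℝ) - 1) * Qx B x p := by
  unfold Rr Qx
  rw [erase_adj hT hx, prod_insert (by simp)]
  push_cast
  have : (x : ℝ) - (x + 1) ≠ 0 := by
    rw [sub_ne_zero]
    intro h
    linarith
  rw [show ((x : ℝ) + p - (x + 1)) / ((x : ℝ) - (x + 1)) = -((p : ℝ) - 1) by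
    rw [div_eq_iff this]
    ring]
  ring

theorem Qx_nonneg (B : Finset ℕ) (x p : ℕ) : 0 ≤ Qx B x p := by
  unfold Qx
  refine mul_nonneg (prod_nonneg fun y hy => ?_) (by positivity)
  have h1 : (y : ℝ) < x := by exact_mod_cast (mem_filter.1 hy).2
  have h2 : (0 : ℝ) ≤ p := Nat.cast_nonneg p
  exact div_nonneg (by linarith) (by linarith)

theorem prod_tel (X k : ℕ) (hk : k ≤ X) :
    ∏ z ∈ range k, (((X : ℝ) - z) / ((X : ℝ) + 1 - z)) = ((X : ℝ) + 1 - k) / ((X : ℝ) + 1) := by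
  induction k with
  | zero =>
    have : (X : ℝ) + 1 ≠ 0 := by positivity
    simp [this]
  | succ k ih =>
    rw [prod_range_succ, ih (by omega)]
    have h1 : (k : ℝ) + 1 ≤ X := by exact_mod_cast hk
    have h2 : (X : ℝ) + 1 - k ≠ 0 := by linarith
    have h3 : (X : ℝ) + 1 ≠ 0 := by positivity
    push_cast
    field_simp
    ring

/-- **the quotient of two consecutive ratios** -/
theorem Qx_succ {B : Finset ℕ} {x : ℕ} (p : ℕ) :
    Qx B x p ≤ ((x : ℝ) + p + 1 - blw B x) * Qx B x (p + 1) := by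
  have hb : blw B x ≤ x := blw_le B x
  have e1 : Qx B x p = Qx B x (p + 1) *
      (((x : ℝ) + p + 1) * ∏ y ∈ B.filter (· < x), ((((x + p : ℕ) : ℝ) - y) / (((x + p : ℕ) : ℝ) + 1 - y))) := by
    unfold Qx
    have f1 : ((x + (p + 1)).factorial : ℝ) = ((x : ℝ) + p + 1) * ((x + p).factorial : ℝ) := by
      rw [← add_assoc, Nat.factorial_succ]
      push_cast
      ring
    have e2 : ∏ y ∈ B.filter (· < x), (((x : ℝ) + p - y) / ((x : ℝ) - y)) =
        (∏ y ∈ B.filter (· < x), (((x : ℝ) + (p + 1 : ℕ) - y) / ((x : ℝ) - y))) *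
        ∏ y ∈ B.filter (· < x), ((((x + p : ℕ) : ℝ) - y) / (((x + p : ℕ) : ℝ) + 1 - y)) := by
      rw [← prod_mul_distrib]
      refine prod_congr rfl fun y hy => ?_
      have h1 : (y : ℝ) < x := by exact_mod_cast (mem_filter.1 hy).2
      have h2 : (0 : ℝ) ≤ p := Nat.cast_nonneg p
      have h3 : (x : ℝ) - y ≠ 0 := by linarith
      have h4 : (x : ℝ) + p + 1 - y ≠ 0 := by linarith
      have h5 : (x : ℝ) + (p + 1) - y ≠ 0 := by linarith
      push_cast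
      field_simp
      ring
    rw [e2, f1]
    have g1 : (0 : ℝ) < ((x + p).factorial : ℝ) := by exact_mod_cast Nat.factorial_pos _
    have g2 : (0 : ℝ) < (x : ℝ) + p + 1 := by positivity
    field_simp
  have h1 : ∏ y ∈ B.filter (· < x), ((((x + p : ℕ) : ℝ) - y) / (((x + p : ℕ) : ℝ) + 1 - y)) ≤
      ((((x + p : ℕ) : ℝ) + 1 - blw B x) / (((x + p : ℕ) : ℝ) + 1)) := by
    rw [← prod_tel (x + p) (blw B x) (by omega)]
    have e3 : ∏ z ∈ range (blw B x), ((((x + p : ℕ) : ℝ) - z) / (((x + p : ℕ) : ℝ) + 1 - z)) =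
        ∏ y ∈ B.filter (· < x), ((((x + p : ℕ) : ℝ) - blw B y) / (((x + p : ℕ) : ℝ) + 1 - blw B y)) := by
      unfold blw
      rw [← prod_blw (fun z => (((x + p : ℕ) : ℝ) - z) / (((x + p : ℕ) : ℝ) + 1 - z)) (B.filter (· < x))]
      refine prod_congr rfl fun b hb => ?_
      rw [blw_filter (mem_filter.1 hb).2.le]
      rfl
    rw [e3]
    refine prod_le_prod (fun y hy => ?_) fun y hy => ?_
    · have h1 : (y : ℝ) < x := by exact_mod_cast (mem_filter.1 hy).2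
      have h2 : (0 : ℝ) ≤ p := Nat.cast_nonneg p
      push_cast
      exact div_nonneg (by linarith) (by linarith)
    · have h1 : (y : ℝ) < x := by exact_mod_cast (mem_filter.1 hy).2
      have h2 : (0 : ℝ) ≤ p := Nat.cast_nonneg p
      have h3 : (blw B y : ℝ) ≤ y := by exact_mod_cast blw_le B y
      push_cast
      rw [div_le_div_iff₀ (by linarith) (by linarith)]
      nlinarith
  rw [e1]
  have h2 : ((x : ℝ) + p + 1) * ∏ y ∈ B.filter (· < x), ((((x + p : ℕ) : ℝ) - y) / (((x + p : ℕ) : ℝ) + 1 - y)) ≤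
      (x : ℝ) + p + 1 - blw B x := by
    have h3 : (0 : ℝ) < (x : ℝ) + p + 1 := by positivity
    refine (mul_le_mul_of_nonneg_left h1 h3.le).trans (le_of_eq ?_)
    push_cast
    field_simp
  rw [mul_comm]
  exact mul_le_mul_of_nonneg_right h2 (Qx_nonneg B x (p + 1))

/-- **upper bound of the ratio** -/
theorem Qx_le {B : Finset ℕ} {x : ℕ} (p : ℕ) :
    Qx B x p ≤ hk B x / (((x + p - blw B x : ℕ)).factorial : ℝ) := by
  have hb : blw B x ≤ x := blw_le B x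
  have h1 := H5.prod_sub_le (x + p) (blw B x) (B.filter (· < x)) rfl
    (fun y hy => by
      have := (mem_filter.1 hy).2
      omega)
  rw [H5.prod_range_sub _ _ (by omega)] at h1
  have e1 : Qx B x p = hk B x * ((∏ y ∈ B.filter (· < x), (((x + p : ℕ) : ℝ) - y)) /
      ((x + p).factorial : ℝ)) := by
    unfold Qx hk
    rw [prod_div_distrib]
    push_cast
    ring
  rw [e1, div_eq_mul_one_div (hk B x)]
  refine mul_le_mul_of_nonneg_left ?_ (hk_pos B x).le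
  have g1 : (0 : ℝ) < ((x + p).factorial : ℝ) := by exact_mod_cast Nat.factorial_pos _
  rw [div_le_iff₀ g1]
  refine h1.trans (le_of_eq ?_)
  ring

/-! ## the kernel in the layer 5 -/

theorem g2m_ge {m : ℕ} (hm : 16 ≤ m) : 2 * ((m : ℝ) - 2) * ((m : ℝ) + 1) ≤ g2m m := by
  have h2 := cm_le hm
  have hm' : (16 : ℝ) ≤ m := by exact_mod_cast hm
  unfold g2m
  have h6 : (1 - 2 / (m : ℝ)) * (2 * (m : ℝ) * (m + 1)) ≤ (1 - cm m) * (2 * (m : ℝ) * (m + 1)) :=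
    mul_le_mul_of_nonneg_right (by linarith) (by positivity)
  refine le_trans (le_of_eq ?_) h6
  field_simp

/-- the binomial part is nonnegative -/
theorem Abin5_nonneg {m : ℕ} (hm : 16 ≤ m) (k : ℕ) : 0 ≤ H5.Abin (m - 3) 5 (5 + k) := by
  obtain ⟨t, rfl⟩ : ∃ t, m = t + 3 := ⟨m - 3, by omega⟩
  have ht : (13 : ℝ) ≤ t := by
    have : 13 ≤ t := by omega
    exact_mod_cast this
  have hk : (0 : ℝ) ≤ k := Nat.cast_nonneg k
  unfold H5.Abin
  rw [show t + 3 - 3 = t by omega, show 5 + k - 1 = 4 + k by omega, show 5 - 2 = 3 by norm_num]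
  refine mul_nonneg (Nat.cast_nonneg _) ?_
  have h1 := Nat.choose_mul_succ_eq (4 + k) 3
  rw [show 4 + k + 1 - 3 = k + 2 by omega, show 4 + k + 1 = 5 + k by omega] at h1
  have h2 : ((4 + k).choose 3 : ℝ) * ((k : ℝ) + 5) = ((5 + k).choose 3 : ℝ) * ((k : ℝ) + 2) := by
    have : (((4 + k).choose 3 * (5 + k) : ℕ) : ℝ) = (((5 + k).choose 3 * (k + 2) : ℕ) : ℝ) := by
      exact_mod_cast h1
    push_cast at this
    linarith
  have h3 : (0 : ℝ) ≤ ((5 + k).choose 3 : ℝ) := Nat.cast_nonneg _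
  have e1 : ((4 + k).choose 3 : ℝ) = ((5 + k).choose 3 : ℝ) * (((k : ℝ) + 2) / ((k : ℝ) + 5)) := by
    field_simp
    linarith
  rw [e1]
  have e2 : ((5 + k).choose 3 : ℝ) * (((k : ℝ) + 2) / ((k : ℝ) + 5)) -
      ((t : ℝ) + (5 : ℕ) - 2) / (t * (((5 : ℕ) : ℝ) - 1)) * ((5 + k).choose 3 : ℝ) =
      ((5 + k).choose 3 : ℝ) * ((((k : ℝ) + 2) / ((k : ℝ) + 5)) - ((t : ℝ) + 3) / (t * 4)) := by
    push_cast
    ring
  rw [e2]
  refine mul_nonneg h3 ?_
  rw [sub_nonneg, div_le_div_iff₀ (by positivity) (by positivity)]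
  nlinarith

theorem kh5_eq {m M0 : ℕ} (hm : 16 ≤ m) (hM : 5 ≤ M0) (k : ℕ) :
    kh m M0 (M0 - 5) (5 + k) = H5.Abin (m - 3) 5 (5 + k) +
      (((m - 3 + 5 - 2).choose 4 : ℝ) / ((m - 3 : ℕ) : ℝ)) *
        (((4 + k).choose (k + 2) : ℝ) + g1m m * ((3 + k).choose (k + 1) : ℝ) +
          g2m m * ((2 + k).choose k : ℝ)) := by
  rw [H5.kh_two (by omega) (by norm_num) hM k]
  norm_num

theorem kh5_nonneg {m M0 : ℕ} (hm : 16 ≤ m) (hM : 5 ≤ M0) (k : ℕ) :
    0 ≤ kh m M0 (M0 - 5) (5 + k) := by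
  rw [kh5_eq hm hM k]
  refine add_nonneg (Abin5_nonneg hm k) (mul_nonneg (by positivity) ?_)
  have hg1 := (H5.g1m_abs hm).1
  have hg2 := g2m_ge hm
  have hmR : (16 : ℝ) ≤ m := by exact_mod_cast hm
  have h1 := Nat.add_one_mul_choose_eq (2 + k) k
  rw [show 2 + k + 1 = 3 + k by omega] at h1
  have h2 : ((3 : ℝ) + k) * ((2 + k).choose k : ℝ) = ((3 + k).choose (k + 1) : ℝ) * ((k : ℝ) + 1) := by
    exact_mod_cast h1
  have h0 : (0 : ℝ) ≤ ((2 + k).choose k : ℝ) := Nat.cast_nonneg _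
  have h3 : (0 : ℝ) ≤ ((4 + k).choose (k + 2) : ℝ) := Nat.cast_nonneg _
  have hk : (0 : ℝ) ≤ k := Nat.cast_nonneg k
  have h4 : ((3 + k).choose (k + 1) : ℝ) ≤ 3 * ((2 + k).choose k : ℝ) := by
    have h5 : ((3 + k).choose (k + 1) : ℝ) * ((k : ℝ) + 1) ≤ 3 * ((2 + k).choose k : ℝ) * ((k : ℝ) + 1) := by
      rw [← h2]
      nlinarith [mul_nonneg hk h0]
    exact le_of_mul_le_mul_right h5 (by positivity)
  have h5 : (0 : ℝ) ≤ ((3 + k).choose (k + 1) : ℝ) := Nat.cast_nonneg _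
  have h6 : -(3 * (m : ℝ) - 2) ≤ g1m m := (abs_le.1 hg1).1
  have h7 : -(3 * (m : ℝ) - 2) * (3 * ((2 + k).choose k : ℝ)) ≤ g1m m * ((3 + k).choose (k + 1) : ℝ) := by
    have h8 : (0 : ℝ) ≤ 3 * (m : ℝ) - 2 := by linarith
    calc -(3 * (m : ℝ) - 2) * (3 * ((2 + k).choose k : ℝ))
        ≤ -(3 * (m : ℝ) - 2) * ((3 + k).choose (k + 1) : ℝ) := by nlinarith [mul_le_mul_of_nonneg_left h4 h8]
      _ ≤ _ := mul_le_mul_of_nonneg_right h6 h5
  have h8 : 2 * ((m : ℝ) - 2) * ((m : ℝ) + 1) * ((2 + k).choose k : ℝ) ≤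
      g2m m * ((2 + k).choose k : ℝ) := mul_le_mul_of_nonneg_right hg2 h0
  have h9 : 0 ≤ (2 * ((m : ℝ) - 2) * ((m : ℝ) + 1) - (3 * (m : ℝ) - 2) * 3) * ((2 + k).choose k : ℝ) := by
    refine mul_nonneg ?_ h0
    nlinarith
  linarith

/-- the values `n = 1, 2, 3` in terms of `gR` -/
theorem kh5_vals {m M0 : ℕ} (hm : 16 ≤ m) (hM : 5 ≤ M0) {g : ℝ}
    (hg : g = ((m - 3 + 5 - 2).choose 4 : ℝ) / ((m - 3 : ℕ) : ℝ)) :
    kh m M0 (M0 - 5) 4 = g * g1m m ∧
    kh m M0 (M0 - 5) 5 = g * (3 * ((m : ℝ) + 1) * ((m : ℝ) - 8) / 10 + 6 + 3 * g1m m + g2m m) ∧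
    kh m M0 (M0 - 5) 6 = g * (((m : ℝ) + 1) * ((m : ℝ) + 2) * ((m : ℝ) - 6) / 6 + 10 + 6 * g1m m +
      3 * g2m m) := by
  obtain ⟨t, rfl⟩ : ∃ t, m = t + 3 := ⟨m - 3, by omega⟩
  have ht : (13 : ℝ) ≤ t := by
    have : 13 ≤ t := by omega
    exact_mod_cast this
  have ht0 : (t : ℝ) ≠ 0 := by linarith
  have h1 := H5.kh_one (m := t + 3) (i := 5) (M0 := M0) (by omega) (by norm_num) hM
  have h2 := kh5_eq (m := t + 3) hm hM 0
  have h3 := kh5_eq (m := t + 3) hm hM 1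
  have e4 : (((t + 3 - 3 + 5 - 2).choose 4 : ℕ) : ℝ) = g * t := by
    rw [hg, show t + 3 - 3 = t by omega]
    field_simp
  have c1 : ((t + 4).choose 5 : ℝ) = ((t : ℝ) + 4) * (g * t) / 5 := by
    have := Nat.add_one_mul_choose_eq (t + 3) 4
    have h : ((t : ℝ) + 3 + 1) * ((t + 3).choose 4 : ℝ) = ((t + 3 + 1).choose (4 + 1) : ℝ) * ((4 : ℝ) + 1) := by
      exact_mod_cast this
    rw [show t + 3 - 3 + 5 - 2 = t + 3 by omega] at e4
    rw [e4] at h
    rw [show t + 3 + 1 = t + 4 by omega, show 4 + 1 = 5 by norm_num] at h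
    linarith
  have c2 : ((t + 5).choose 6 : ℝ) = ((t : ℝ) + 5) * (((t : ℝ) + 4) * (g * t) / 5) / 6 := by
    have := Nat.add_one_mul_choose_eq (t + 4) 5
    have h : ((t : ℝ) + 4 + 1) * ((t + 4).choose 5 : ℝ) = ((t + 4 + 1).choose (5 + 1) : ℝ) * ((5 : ℝ) + 1) := by
      exact_mod_cast this
    rw [c1] at h
    rw [show t + 4 + 1 = t + 5 by omega, show 5 + 1 = 6 by norm_num] at h
    linarith
  refine ⟨?_, ?_, ?_⟩
  · rw [show 5 - 1 = 4 by norm_num] at h1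
    rw [h1, ← hg]
    norm_num
  · rw [add_zero] at h2
    rw [h2, ← hg]
    unfold H5.Abin
    rw [show t + 3 - 3 + 5 - 1 = t + 4 by omega, show t + 3 - 3 = t by omega, c1,
      show Nat.choose (5 - 1) (5 - 2) = 4 by decide, show Nat.choose 5 (5 - 2) = 10 by decide,
      show Nat.choose (4 + 0) (0 + 2) = 6 by decide, show Nat.choose (3 + 0) (0 + 1) = 3 by decide,
      show Nat.choose (2 + 0) 0 = 1 by decide]
    push_cast
    field_simp
    ring
  · rw [show 5 + 1 = 6 by norm_num] at h3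
    rw [h3, ← hg]
    unfold H5.Abin
    rw [show t + 3 - 3 + 6 - 1 = t + 5 by omega, show t + 3 - 3 = t by omega, c2,
      show Nat.choose (6 - 1) (5 - 2) = 10 by decide, show Nat.choose 6 (5 - 2) = 20 by decide,
      show Nat.choose (3 + 1) (1 + 1) = 6 by decide,
      show Nat.choose (2 + 1) 1 = 3 by decide]
    push_cast
    field_simp
    ring

/-- the final inequality -/
theorem phi_ge {m : ℕ} (hm : 21 ≤ m) :
    -(6 / 5 * ((m : ℝ) - 8)) ≤ 3 * g1m m +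
      4 * ((3 * ((m : ℝ) + 1) * ((m : ℝ) - 8) / 10 + 6 + 3 * g1m m + g2m m) / ((m : ℝ) + 1)) +
      5 * ((((m : ℝ) + 1) * ((m : ℝ) + 2) * ((m : ℝ) - 6) / 6 + 10 + 6 * g1m m +
        3 * g2m m) / (((m : ℝ) + 1) * ((m : ℝ) + 2))) := by
  have h1 := cm_ge (m := m) (by omega)
  have hm' : (21 : ℝ) ≤ m := by exact_mod_cast hm
  obtain ⟨s, hs⟩ : ∃ s, s = 1 - cm m := ⟨_, rfl⟩
  have h0 : 0 ≤ 1 / (m : ℝ) := by positivity
  have hs1 : s ≤ 1 := by
    rw [hs]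
    linarith
  have e1 : g1m m = -s * (3 * (m : ℝ) + 1) := by
    unfold g1m
    rw [hs]
  have e2 : g2m m = s * (2 * (m : ℝ) * (m + 1)) := by
    unfold g2m
    rw [hs]
  rw [e1, e2, ← sub_nonneg]
  have e3 : 3 * (-s * (3 * (m : ℝ) + 1)) +
      4 * ((3 * ((m : ℝ) + 1) * ((m : ℝ) - 8) / 10 + 6 + 3 * (-s * (3 * (m : ℝ) + 1)) +
        s * (2 * (m : ℝ) * (m + 1))) / ((m : ℝ) + 1)) +
      5 * ((((m : ℝ) + 1) * ((m : ℝ) + 2) * ((m : ℝ) - 6) / 6 + 10 + 6 * (-s * (3 * (m : ℝ) + 1)) +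
        3 * (s * (2 * (m : ℝ) * (m + 1)))) / (((m : ℝ) + 1) * ((m : ℝ) + 2))) -
      -(6 / 5 * ((m : ℝ) - 8)) =
      (s * (-(m : ℝ) ^ 3 - 12 * (m : ℝ) ^ 2 - 155 * m - 60) +
        (12 / 5 * ((m : ℝ) - 8) * (((m : ℝ) + 1) * ((m : ℝ) + 2)) + 24 * ((m : ℝ) + 2) +
          5 / 6 * ((m : ℝ) - 6) * (((m : ℝ) + 1) * ((m : ℝ) + 2)) + 50)) /
        (((m : ℝ) + 1) * ((m : ℝ) + 2)) := by
    field_simp
    ring
  rw [e3]
  refine div_nonneg ?_ (by positivity)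
  have h2 : -(m : ℝ) ^ 3 - 12 * (m : ℝ) ^ 2 - 155 * m - 60 ≤
      s * (-(m : ℝ) ^ 3 - 12 * (m : ℝ) ^ 2 - 155 * m - 60) := by
    have h3 : 0 ≤ (m : ℝ) ^ 3 + 12 * (m : ℝ) ^ 2 + 155 * m + 60 := by positivity
    nlinarith [mul_nonneg (by linarith : (0 : ℝ) ≤ 1 - s) h3]
  have h4 : 0 ≤ (m : ℝ) - 21 := by linarith
  nlinarith [mul_nonneg h4 h4, mul_nonneg (mul_nonneg h4 h4) h4]

/-- **the class (4,5)** -/
theorem _root_.Pool.JM.C45 {m M A : ℕ} (hm : 21 ≤ m) (hA : 6 ≤ A) {B : Finset ℕ}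
    (hB : B ∈ Lv (M + 1) (m + (m - 3))) (hT : tb B = M + m - 4) {x : ℕ} (hx : x ∈ B)
    (hxM : x = M + m - 5) : -(1 / 20 : ℝ) ≤ -Cr m A (M + m) B x := by
  have hTx : tb B = x + 1 := by omega
  have hTB : x + 1 ∈ B := by
    rw [← hTx]
    exact H5.tb_memB ⟨x, hx⟩
  have hle : ∀ y ∈ B, y ≤ x + 1 := fun y hy => by
    rw [← hTx]
    exact H5.mem_le_tb hy
  -- the rows
  have h1 := top_row hB hTB hle
  have h2 := second_row hB hTB hx (Nat.lt_succ_self x) (fun z hz hne => by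
    have := hle z hz
    omega)
  have hbx : bx B x = 5 := by omega
  have hln : ln B x = m - 4 := by omega
  have hblw : blw B x = x - (m - 4) := by
    have := ln_add B x
    omega
  have hM : 1 ≤ M := by
    have h3 : 1 < B.card := Finset.one_lt_card.2 ⟨x, hx, x + 1, hTB, by omega⟩
    have := (Lv_spec hB).1
    omega
  have hblw' : blw B x + 1 = M := by omega
  have hmR : (21 : ℝ) ≤ m := by exact_mod_cast hm
  have hxR : (x : ℝ) = M + m - 5 := by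
    have : ((x + 5 : ℕ) : ℝ) = ((M + m : ℕ) : ℝ) := by
      congr 1
      omega
    push_cast at this
    linarith
  have hbR : (blw B x : ℝ) = M - 1 := by
    have : ((blw B x + 1 : ℕ) : ℝ) = (M : ℝ) := by rw [hblw']
    push_cast at this
    linarith
  -- the ratios
  have q5 : Qx B x 4 ≤ ((m : ℝ) + 1) * Qx B x 5 := by
    refine (Qx_succ (B := B) (x := x) 4).trans (le_of_eq ?_)
    rw [hxR, hbR]
    push_cast
    ring
  have q6 : Qx B x 5 ≤ ((m : ℝ) + 2) * Qx B x 6 := by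
    refine (Qx_succ (B := B) (x := x) 5).trans (le_of_eq ?_)
    rw [hxR, hbR]
    push_cast
    ring
  have q4 : Qx B x 4 ≤ ((m - 4).factorial : ℝ) * (((m : ℝ) - 3) / ((m : ℝ) - 8)) / (m.factorial : ℝ) := by
    refine (Qx_le (B := B) (x := x) 4).trans ?_
    rw [show x + 4 - blw B x = m by omega]
    refine div_le_div_of_nonneg_right ?_ (by positivity)
    rw [hk_eq, hln, hf_eq_hfr]
    refine mul_le_mul_of_nonneg_left ?_ (by positivity)
    have h3 : (x : ℝ) - blw B x + 1 = (m : ℝ) - 3 := by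
      rw [hxR, hbR]
      ring
    have h4 := hfr_le (B := B) (x := x) (z := x) le_rfl h3 (by
      rw [hbx]
      push_cast
      linarith)
    refine h4.trans (le_of_eq ?_)
    rw [hbx]
    push_cast
    congr 1
    ring
  -- the sum
  obtain ⟨g, hg⟩ : ∃ g : ℝ, g = ((m - 3 + 5 - 2).choose 4 : ℝ) / ((m - 3 : ℕ) : ℝ) := ⟨_, rfl⟩
  have hg0 : 0 ≤ g := by
    rw [hg]
    positivity
  obtain ⟨v4, v5, v6⟩ := kh5_vals (M0 := M + m) (by omega : 16 ≤ m) (by omega) hg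
  have n5 := kh5_nonneg (M0 := M + m) (by omega : 16 ≤ m) (by omega) 0
  have n6 := kh5_nonneg (M0 := M + m) (by omega : 16 ≤ m) (by omega) 1
  rw [add_zero] at n5
  rw [show 5 + 1 = 6 by norm_num] at n6
  rw [← hxM] at v4 v5 v6 n5 n6
  have hsum : -Cr m A (M + m) B x = ∑ p ∈ range (A + 1), kh m (M + m) x p * (((p : ℝ) - 1) * Qx B x p) := by
    unfold Cr
    rw [← sum_neg_distrib]
    refine sum_congr rfl fun p _ => ?_
    rw [← Rr_adj hTx hx p]
    ring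
  have hge : kh m (M + m) x 4 * (3 * Qx B x 4) + kh m (M + m) x 5 * (4 * Qx B x 5) +
      kh m (M + m) x 6 * (5 * Qx B x 6) ≤ -Cr m A (M + m) B x := by
    rw [hsum]
    have e : range (A + 1) = range (7 + (A - 6)) := by
      congr 1
      omega
    rw [e, sum_range_add]
    have e2 : ∑ p ∈ range 7, kh m (M + m) x p * (((p : ℝ) - 1) * Qx B x p) =
        kh m (M + m) x 4 * (3 * Qx B x 4) + kh m (M + m) x 5 * (4 * Qx B x 5) +
          kh m (M + m) x 6 * (5 * Qx B x 6) := by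
      rw [sum_range_succ, sum_range_succ, sum_range_succ, sum_eq_zero]
      · push_cast
        ring
      · intro p hp
        have := mem_range.1 hp
        rw [kh_lt (by omega), zero_mul]
    rw [e2]
    have e3 : 0 ≤ ∑ j ∈ range (A - 6), kh m (M + m) x (7 + j) *
        ((((7 + j : ℕ) : ℝ) - 1) * Qx B x (7 + j)) := by
      refine sum_nonneg fun j _ => ?_
      have h3 := kh5_nonneg (M0 := M + m) (by omega : 16 ≤ m) (by omega) (2 + j)
      rw [← hxM, show 5 + (2 + j) = 7 + j by omega] at h3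
      refine mul_nonneg h3 (mul_nonneg ?_ (Qx_nonneg _ _ _))
      push_cast
      have : (0 : ℝ) ≤ j := Nat.cast_nonneg j
      linarith
    linarith
  refine le_trans ?_ hge
  have Q0 := Qx_nonneg B x 4
  obtain ⟨a, ha⟩ : ∃ a : ℝ, a = Qx B x 4 := ⟨_, rfl⟩
  obtain ⟨b, hb⟩ : ∃ b : ℝ, b = Qx B x 5 := ⟨_, rfl⟩
  obtain ⟨c, hc⟩ : ∃ c : ℝ, c = Qx B x 6 := ⟨_, rfl⟩
  rw [← ha, ← hb] at q5
  rw [← hb, ← hc] at q6
  rw [← ha] at q4 Q0
  rw [← ha, ← hb, ← hc]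
  have hm1 : (0 : ℝ) < (m : ℝ) + 1 := by linarith
  have hm2 : (0 : ℝ) < (m : ℝ) + 2 := by linarith
  have b1 : a / ((m : ℝ) + 1) ≤ b := by
    rw [div_le_iff₀ hm1]
    linarith
  have c1 : a / (((m : ℝ) + 1) * ((m : ℝ) + 2)) ≤ c := by
    rw [div_le_iff₀ (by positivity)]
    calc a ≤ ((m : ℝ) + 1) * b := q5
      _ ≤ ((m : ℝ) + 1) * (((m : ℝ) + 2) * c) := mul_le_mul_of_nonneg_left q6 hm1.le
      _ = _ := by ring
  have t5 : kh m (M + m) x 5 * (4 * (a / ((m : ℝ) + 1))) ≤ kh m (M + m) x 5 * (4 * b) :=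
    mul_le_mul_of_nonneg_left (by linarith) n5
  have t6 : kh m (M + m) x 6 * (5 * (a / (((m : ℝ) + 1) * ((m : ℝ) + 2)))) ≤ kh m (M + m) x 6 * (5 * c) :=
    mul_le_mul_of_nonneg_left (by linarith) n6
  have hphi := phi_ge hm
  have hag : 0 ≤ g * a := mul_nonneg hg0 Q0
  have key := mul_le_mul_of_nonneg_left hphi hag
  have key2 : g * a * (6 / 5 * ((m : ℝ) - 8)) ≤ 1 / 20 := by
    have hg' : g = (m.factorial : ℝ) / (24 * ((m - 3).factorial : ℝ)) := by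
      rw [hg]
      have := H5.gR_eq (m := m) (i := 5) (by omega) (by norm_num)
      rw [show 5 - 1 = 4 by norm_num, show m + 5 - 5 = m by omega,
        show Nat.factorial 4 = 24 by decide] at this
      rw [this]
      push_cast
      rfl
    have hF : ((m - 3).factorial : ℝ) = ((m : ℝ) - 3) * ((m - 4).factorial : ℝ) := by
      rw [show m - 3 = (m - 4) + 1 by omega, Nat.factorial_succ]
      push_cast
      rw [Nat.cast_sub (by omega)]
      push_cast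
      ring
    have f1 : (0 : ℝ) < (m.factorial : ℝ) := by exact_mod_cast Nat.factorial_pos _
    have f2 : (0 : ℝ) < ((m - 4).factorial : ℝ) := by exact_mod_cast Nat.factorial_pos _
    have h8 : (0 : ℝ) < (m : ℝ) - 8 := by linarith
    have h3 : (0 : ℝ) < (m : ℝ) - 3 := by linarith
    have h9 : g * a ≤ 1 / (24 * ((m : ℝ) - 8)) := by
      refine (mul_le_mul_of_nonneg_left q4 hg0).trans (le_of_eq ?_)
      rw [hg', hF]
      field_simp
    have h10 := mul_le_mul_of_nonneg_right h9 (by positivity : 0 ≤ 6 / 5 * ((m : ℝ) - 8))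
    refine h10.trans (le_of_eq ?_)
    field_simp
    norm_num
  rw [v4]
  rw [v5] at t5 ⊢
  rw [v6] at t6 ⊢
  have e9 : g * a * (3 * g1m m +
      4 * ((3 * ((m : ℝ) + 1) * ((m : ℝ) - 8) / 10 + 6 + 3 * g1m m + g2m m) / ((m : ℝ) + 1)) +
      5 * ((((m : ℝ) + 1) * ((m : ℝ) + 2) * ((m : ℝ) - 6) / 6 + 10 + 6 * g1m m +
        3 * g2m m) / (((m : ℝ) + 1) * ((m : ℝ) + 2)))) =
      g * g1m m * (3 * a) +
      g * (3 * ((m : ℝ) + 1) * ((m : ℝ) - 8) / 10 + 6 + 3 * g1m m + g2m m) *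
        (4 * (a / ((m : ℝ) + 1))) +
      g * (((m : ℝ) + 1) * ((m : ℝ) + 2) * ((m : ℝ) - 6) / 6 + 10 + 6 * g1m m +
      3 * g2m m) * (5 * (a / (((m : ℝ) + 1) * ((m : ℝ) + 2)))) := by
    ring
  rw [e9] at key
  linarith

end Pool.JM.H81
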