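import Pool.Agent.Work.MP_46fa68_81.Term

/-!
# MP_46fa68_co: U0, rows >= 2, class (7,8)
-/

set_option autoImplicit false

open Finset

namespace Pool.JM.H81

open Pool.JM.H5

/-- `etaR = hk / da` -/
theorem etaR_eq_hk {B : Finset ℕ} {x : ℕ} (hx : x ∈ B) : etaR B x = hk B x / da B x := by
  have h1 := ex_erase hx
  have h2 := ex_erase' hx
  have h3 : 0 < ex B := ex_pos B
  rw [h1] at h2
  exact mul_left_cancel₀ h3.ne' h2

/-- for even `i`, `x = tb - 1`: minus the terms `n ≥ 2` is a lower bound -/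
theorem adj_even {m M A i : ℕ} (hm : 21 ≤ m) (hi : 3 ≤ i) (heven : Even i) {B : Finset ℕ} {x : ℕ}
    (hx : x ∈ B) (hxM : x + i = M + m) (hTx : tb B = x + 1) :
    -∑ k ∈ range (A + 1), |kh m (M + m) x (i + k) * Rr B x (i + k)| ≤ -Cr m A (M + m) B x := by
  have h1 : Cr m A (M + m) B x = ∑ p ∈ (range (A + 1)).filter (· < i), kh m (M + m) x p * Rr B x p +
      ∑ p ∈ (range (A + 1)).filter (fun p => ¬ p < i), kh m (M + m) x p * Rr B x p := by
    unfold Cr
    rw [sum_filter_add_sum_filter_not]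
  have h2 : ∑ p ∈ (range (A + 1)).filter (· < i), kh m (M + m) x p * Rr B x p ≤ 0 := by
    refine sum_nonpos fun p hp => ?_
    have hp' := (mem_filter.1 hp).2
    by_cases h : p + 1 < i
    · rw [kh_lt (by omega), zero_mul]
    · have hpi : p = i - 1 := by omega
      have hk := kh_one (m := m) (i := i) (M0 := M + m) (by omega) hi (by omega)
      rw [show M + m - i = x by omega, heven.neg_one_pow, ← hpi] at hk
      have hR := Rr_adj hTx hx p
      have hQ := Qx_nonneg B x p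
      have hp1 : (1 : ℝ) ≤ p := by exact_mod_cast (by omega : 1 ≤ p)
      have hg := (g1m_abs (m := m) (by omega)).2
      have hgR : (0 : ℝ) ≤ ((m - 3 + i - 2).choose p : ℝ) / ((m - 3 : ℕ) : ℝ) := by positivity
      have e1 : Rr B x p ≤ 0 := by
        have : 0 ≤ ((p : ℝ) - 1) * Qx B x p := mul_nonneg (by linarith) hQ
        linarith
      have e2 : 0 ≤ kh m (M + m) x p := by
        rw [hk]
        have : ((m - 3 + i - 2).choose p : ℝ) / ((m - 3 : ℕ) : ℝ) * g1m m ≤ 0 :=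
          mul_nonpos_of_nonneg_of_nonpos hgR hg
        linarith
      exact mul_nonpos_of_nonneg_of_nonpos e2 e1
  have h3 : ∑ p ∈ (range (A + 1)).filter (fun p => ¬ p < i), kh m (M + m) x p * Rr B x p ≤
      ∑ k ∈ range (A + 1), |kh m (M + m) x (i + k) * Rr B x (i + k)| := by
    have e3 : ∑ p ∈ (range (A + 1)).filter (fun p => ¬ p < i), kh m (M + m) x p * Rr B x p ≤
        ∑ p ∈ (range (A + 1)).filter (fun p => ¬ p < i), |kh m (M + m) x p * Rr B x p| :=
      sum_le_sum fun p _ => le_abs_self _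
    refine e3.trans ?_
    have e4 : ∑ k ∈ range (A + 1), |kh m (M + m) x (i + k) * Rr B x (i + k)| =
        ∑ p ∈ (range (A + 1)).image (i + ·), |kh m (M + m) x p * Rr B x p| := by
      rw [sum_image fun a _ b _ h => Nat.add_left_cancel h]
    rw [e4]
    refine sum_le_sum_of_subset_of_nonneg (fun p hp => ?_) fun _ _ _ => abs_nonneg _
    obtain ⟨h5, h6⟩ := mem_filter.1 hp
    have h7 := mem_range.1 h5
    exact mem_image.2 ⟨p - i, mem_range.2 (by omega), by omega⟩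
  linarith

/-- **the class (7,8)** -/
theorem _root_.Pool.JM.C78 {m M A : ℕ} (hm : 21 ≤ m) {B : Finset ℕ}
    (hB : B ∈ Lv (M + 1) (m + (m - 3))) (hT : tb B + 7 = M + m) {x : ℕ} (hx : x ∈ B)
    (hxM : x + 8 = M + m) : -(1 / 10 : ℝ) ≤ -Cr m A (M + m) B x := by
  obtain ⟨hTx, h1, h2, h4⟩ := adj_data (i := 8) hm (by omega) hB (by omega) hx hxM
  have hS := adj_even (i := 8) (A := A) hm (by omega) (by decide) hx hxM hTx
  refine le_trans ?_ hS
  rw [neg_le_neg_iff]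
  have hmR : (21 : ℝ) ≤ m := by exact_mod_cast hm
  have hD : (7 : ℝ) = |(M : ℝ) + m - tb B| := by
    have : ((tb B : ℕ) : ℝ) + 7 = (M : ℝ) + m := by exact_mod_cast hT
    rw [show (M : ℝ) + m - tb B = 7 by linarith, abs_of_pos (by norm_num)]
  have hxe : x ∈ B.erase (tb B) := mem_erase.2 ⟨by omega, hx⟩
  refine (all_le (by omega) (by norm_num) (by omega) hB hxe (by omega) hD (A + 1)).trans ?_
  -- the eta
  have hda : da B x = 1 := by
    have hle : ∀ z ∈ B, z ≠ x + 1 → z ≤ x := fun z hz hne => by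
      have := mem_le_tb hz
      omega
    have hTB : x + 1 ∈ B := by
      rw [← hTx]
      exact tb_memB ⟨x, hx⟩
    rw [da_second hTB (Nat.lt_succ_self x) hle]
    push_cast
    ring
  have hk := adj_hk hm (by omega : 3 * 8 ≤ m + 6) hxM h1 h2 h4
  have heta : etaR B x ≤ ((m - 7).factorial : ℝ) * (((m : ℝ) - 6) / ((m : ℝ) - 17)) := by
    rw [etaR_eq_hk hx, hda, div_one]
    refine hk.trans (le_of_eq ?_)
    rw [show m + 1 - 8 = m - 7 by omega]
    push_cast
    rw [show (m : ℝ) + 2 - 8 = m - 6 by ring, show (m : ℝ) + 7 - 3 * 8 = m - 17 by ring]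
  have d4 : (0 : ℝ) < (m : ℝ) - 4 := by linarith
  have d5 : (0 : ℝ) < (m : ℝ) - 5 := by linarith
  have d6 : (0 : ℝ) < (m : ℝ) - 6 := by linarith
  have d17 : (0 : ℝ) < (m : ℝ) - 17 := by linarith
  have hbe : bs m 8 * etaR B x ≤ 1 / 450 := by
    have hF : ((m - 4).factorial : ℝ) = ((m : ℝ) - 4) * (((m : ℝ) - 5) * (((m : ℝ) - 6) *
        ((m - 7).factorial : ℝ))) := by
      obtain ⟨n, rfl⟩ : ∃ n, m = n + 7 := ⟨m - 7, by omega⟩
      rw [show n + 7 - 4 = n + 3 by omega, show n + 7 - 7 = n by omega]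
      simp only [Nat.factorial_succ]
      push_cast
      ring
    have hF2 : ((m + 3).factorial : ℝ) = ((m : ℝ) + 3) * (((m : ℝ) + 2) * (((m : ℝ) + 1) *
        (m.factorial : ℝ))) := by
      simp only [Nat.factorial_succ]
      push_cast
      ring
    have f1 : (0 : ℝ) < (m.factorial : ℝ) := by exact_mod_cast Nat.factorial_pos _
    have f2 : (0 : ℝ) < ((m - 7).factorial : ℝ) := by exact_mod_cast Nat.factorial_pos _
    refine (mul_le_mul_of_nonneg_left heta (bs_nonneg m 8)).trans ?_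
    have e1 : bs m 8 * (((m - 7).factorial : ℝ) * (((m : ℝ) - 6) / ((m : ℝ) - 17))) =
        ((m : ℝ) + 3) * ((m : ℝ) + 2) * ((m : ℝ) + 1) /
          (5040 * (((m : ℝ) - 4) * ((m : ℝ) - 5) * ((m : ℝ) - 17))) := by
      unfold bs
      rw [show m + 8 - 5 = m + 3 by omega, show 8 - 1 = 7 by norm_num,
        show Nat.factorial 7 = 5040 by decide, hF, hF2]
      push_cast
      field_simp
    rw [e1, div_le_div_iff₀ (by positivity) (by norm_num)]
    obtain ⟨u, hu⟩ : ∃ u : ℝ, u = (m : ℝ) - 21 := ⟨_, rfl⟩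
    have hu0 : 0 ≤ u := by linarith
    rw [show (m : ℝ) = u + 21 by linarith]
    have : 0 ≤ 1 * (5040 * ((u + 21 - 4) * (u + 21 - 5) * (u + 21 - 17))) -
        (u + 21 + 3) * (u + 21 + 2) * (u + 21 + 1) * 450 := by
      ring_nf
      positivity
    linarith
  -- the sum
  have hmu : muR m 8 = 1 := muR_one (by omega) (by omega)
  have hG : Gc m 8 ≤ 2.28 := by
    unfold Gc
    push_cast
    have a1 : 2 * ((m : ℝ) - 1) / ((m : ℝ) - 3) ≤ 2 + 4 / 18 := by
      rw [div_le_iff₀ (by linarith)]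
      linarith
    have a2 : ((8 : ℝ) - 1) * (8 - 2) / (2 * ((m : ℝ) - 3) * ((m : ℝ) + 1)) ≤ 42 / 792 := by
      have : (792 : ℝ) ≤ 2 * ((m : ℝ) - 3) * ((m : ℝ) + 1) := by nlinarith
      rw [show ((8 : ℝ) - 1) * (8 - 2) = 42 by norm_num]
      exact div_le_div_of_nonneg_left (by norm_num) (by norm_num) this
    have : (2 + 4 / 18 : ℝ) + 42 / 792 ≤ 2.28 := by norm_num
    linarith
  have hz : ((m : ℝ) + 2) / ((m : ℝ) + 1) ≤ 23 / 22 := by
    rw [div_le_div_iff₀ (by linarith) (by norm_num)]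
    linarith
  have hpow : (((m : ℝ) + 2) / ((m : ℝ) + 1)) ^ (8 - 2) ≤ (23 / 22 : ℝ) ^ 6 :=
    pow_le_pow_left₀ (by positivity) hz _
  have hlin : (7 : ℝ) + (((8 : ℕ) : ℝ) - 2) / ((m : ℝ) + 1) ≤ 7 + 6 / 22 := by
    push_cast
    have : ((8 : ℝ) - 2) / ((m : ℝ) + 1) ≤ 6 / 22 := by
      rw [div_le_div_iff₀ (by linarith) (by norm_num)]
      linarith
    linarith
  have hlin0 : 0 ≤ (7 : ℝ) + (((8 : ℕ) : ℝ) - 2) / ((m : ℝ) + 1) := by
    push_cast
    have : 0 ≤ ((8 : ℝ) - 2) / ((m : ℝ) + 1) := by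
      rw [show (8 : ℝ) - 2 = 6 by norm_num]
      positivity
    linarith
  have hgeo : Gc m 8 * ((((m : ℝ) + 2) / ((m : ℝ) + 1)) ^ (8 - 2) *
      ((7 : ℝ) + (((8 : ℕ) : ℝ) - 2) / ((m : ℝ) + 1))) ≤ 2.28 * ((23 / 22 : ℝ) ^ 6 * (7 + 6 / 22)) := by
    refine mul_le_mul hG (mul_le_mul hpow hlin hlin0 (by positivity)) (by positivity) (by norm_num)
  have hy1 : 1 ≤ yR m 8 := by
    unfold yR
    have : 0 ≤ ((8 - 5 : ℕ) : ℝ) / ((m : ℝ) + 1) := by positivity
    linarith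
  have hy2 : yR m 8 ≤ 25 / 22 := by
    unfold yR
    have : ((8 - 5 : ℕ) : ℝ) / ((m : ℝ) + 1) ≤ 3 / 22 := by
      rw [div_le_div_iff₀ (by linarith) (by norm_num)]
      push_cast
      linarith
    linarith
  have hE1 : EyR m 8 ≤ 2.7183 * (22 / 21) ^ 3 := by
    unfold EyR
    refine mul_le_mul_of_nonneg_left (pow_le_pow_left₀ (by positivity) ?_ _) (by norm_num)
    rw [div_le_div_iff₀ (by linarith) (by norm_num)]
    linarith
  have hE0 : 0 ≤ EyR m 8 := by
    unfold EyR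
    positivity
  have hSAR : SAR (yR m 8) (EyR m 8) 7 ≤ 25 / 22 * (2.7183 * (22 / 21) ^ 3) +
      5 * (2.7183 * (22 / 21) ^ 3 * (3 / 25) + 1) := by
    unfold SAR
    have a1 : yR m 8 * EyR m 8 ≤ 25 / 22 * (2.7183 * (22 / 21) ^ 3) :=
      mul_le_mul hy2 hE1 hE0 (by norm_num)
    have a2 : 1 / yR m 8 ≤ 1 := by
      rw [div_le_one (by linarith)]
      exact hy1
    have a3 : 22 / 25 ≤ 1 / yR m 8 := by
      rw [div_le_div_iff₀ (by norm_num) (by linarith)]
      linarith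
    have a4 : EyR m 8 * (1 - 1 / yR m 8) ≤ 2.7183 * (22 / 21) ^ 3 * (3 / 25) :=
      mul_le_mul hE1 (by linarith) (by linarith) (by positivity)
    linarith
  have hS0 : muR m 8 * SAR (yR m 8) (EyR m 8) 7 + Gc m 8 * ((((m : ℝ) + 2) / ((m : ℝ) + 1)) ^ (8 - 2) *
      ((7 : ℝ) + (((8 : ℕ) : ℝ) - 2) / ((m : ℝ) + 1))) ≤ 45 := by
    rw [hmu, one_mul]
    refine (add_le_add hSAR hgeo).trans ?_
    norm_num
  have hbe0 : 0 ≤ bs m 8 * etaR B x := mul_nonneg (bs_nonneg m 8) (etaR_nonneg B x)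
  calc bs m 8 * etaR B x * (muR m 8 * SAR (yR m 8) (EyR m 8) 7 +
        Gc m 8 * ((((m : ℝ) + 2) / ((m : ℝ) + 1)) ^ (8 - 2) *
          ((7 : ℝ) + (((8 : ℕ) : ℝ) - 2) / ((m : ℝ) + 1))))
      ≤ bs m 8 * etaR B x * 45 := mul_le_mul_of_nonneg_left hS0 hbe0
    _ ≤ 1 / 450 * 45 := mul_le_mul_of_nonneg_right hbe (by norm_num)
    _ = 1 / 10 := by norm_num

end Pool.JM.H81
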