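import Pool.Agent.Work.MP_46fa68_81.Adj

/-!
# MP_46fa68_co: U0, rows >= 2: one term of a row, the sum from a given index

`term_le` = one term `n = k + 2` of the row bound ROWB; `tail_le` = the sum of the terms `n >= 4`;
class (7,8).
-/

set_option autoImplicit false

open Finset

namespace Pool.JM.H81

open Pool.JM.H5

noncomputable def Ek (m i : ℕ) (D : ℝ) (k : ℕ) : ℝ :=
  ((k : ℝ) + 1) * (D + k) * yR m i ^ (k + 1) / ((k + 2).factorial : ℝ)

noncomputable def Fk (m i : ℕ) (D : ℝ) (k : ℕ) : ℝ :=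
  ((i - 3 + k).choose k : ℝ) * (D + k) / ((m : ℝ) + 2) ^ k

noncomputable def bs (m i : ℕ) : ℝ := ((m + i - 5).factorial : ℝ) /
    (((m - 4).factorial : ℝ) * (m.factorial : ℝ) * ((i - 1).factorial : ℝ))

noncomputable def Gc (m i : ℕ) : ℝ := 2 * ((m : ℝ) - 1) / ((m : ℝ) - 3) +
    ((i : ℝ) - 1) * ((i : ℝ) - 2) / (2 * ((m : ℝ) - 3) * ((m : ℝ) + 1))

theorem etaR_nonneg (B : Finset ℕ) (x : ℕ) : 0 ≤ etaR B x := by
  unfold etaR
  positivity

theorem bs_nonneg (m i : ℕ) : 0 ≤ bs m i := by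
  unfold bs
  positivity

theorem Gc_nonneg {m i : ℕ} (hm : 16 ≤ m) (hi : 4 ≤ i) : 0 ≤ Gc m i := by
  have hmR : (16 : ℝ) ≤ m := by exact_mod_cast hm
  have hiR : (4 : ℝ) ≤ i := by exact_mod_cast hi
  have hm3 : (0 : ℝ) < (m : ℝ) - 3 := by linarith
  have h6 : 0 ≤ (m : ℝ) - 1 := by linarith
  have h7 : 0 ≤ (i : ℝ) - 1 := by linarith
  have h8 : 0 ≤ (i : ℝ) - 2 := by linarith
  unfold Gc
  positivity

theorem muR_nonneg (m i : ℕ) : 0 ≤ muR m i := le_trans zero_le_one (le_max_left _ _)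

theorem yR_pos (m i : ℕ) : 0 < yR m i := by
  unfold yR
  positivity

/-- one term -/
theorem term_le {m M i : ℕ} (hm : 16 ≤ m) (hi4 : 4 ≤ i) (hiM : i ≤ M + m) {B : Finset ℕ}
    (hB : B ∈ Lv (M + 1) (m + (m - 3))) {x : ℕ} (hx : x ∈ B.erase (tb B)) (hxi : x = M + m - i)
    {D : ℝ} (hD : D = |(M : ℝ) + m - tb B|) (k : ℕ) :
    |kh m (M + m) x (i + k) * Rr B x (i + k)| ≤
      bs m i * etaR B x * (muR m i * Ek m i D k + Gc m i * Fk m i D k) := by
  have hmR : (16 : ℝ) ≤ m := by exact_mod_cast hm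
  have hiR : (4 : ℝ) ≤ i := by exact_mod_cast hi4
  have heta : 0 ≤ etaR B x := etaR_nonneg B x
  have hmu : 0 ≤ muR m i := muR_nonneg m i
  have hD0 : 0 ≤ D := by
    rw [hD]
    exact abs_nonneg _
  have hF : (0 : ℝ) < ((m + i - 5).factorial : ℝ) := by exact_mod_cast Nat.factorial_pos _
  have hF1 : (0 : ℝ) < ((i - 1).factorial : ℝ) := by exact_mod_cast Nat.factorial_pos _
  have hF3 : (0 : ℝ) < ((m - 4).factorial : ℝ) := by exact_mod_cast Nat.factorial_pos _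
  have hF4 : (0 : ℝ) < (m.factorial : ℝ) := by exact_mod_cast Nat.factorial_pos _
  have hF2 : ((m - 3).factorial : ℝ) = ((m : ℝ) - 3) * ((m - 4).factorial : ℝ) := by
    rw [show m - 3 = (m - 4) + 1 by omega, Nat.factorial_succ]
    push_cast
    rw [Nat.cast_sub (by omega)]
    push_cast
    ring
  have hm3 : (0 : ℝ) < (m : ℝ) - 3 := by linarith
  obtain ⟨base, hbase⟩ : ∃ base : ℝ, base = bs m i := ⟨_, rfl⟩
  have hb0 : 0 ≤ base := by
    rw [hbase]
    exact bs_nonneg m i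
  have hbase' : base = ((m + i - 5).factorial : ℝ) /
    (((m - 4).factorial : ℝ) * (m.factorial : ℝ) * ((i - 1).factorial : ℝ)) := hbase
  obtain ⟨G, hG⟩ : ∃ G : ℝ, G = 2 * ((m : ℝ) - 1) * ((m : ℝ) + 1) + ((i : ℝ) - 1) * ((i : ℝ) - 2) / 2 :=
    ⟨_, rfl⟩
  have hG0 : 0 ≤ G := by
    have h6 : 0 ≤ (m : ℝ) - 1 := by linarith
    have h7 : 0 ≤ (i : ℝ) - 1 := by linarith
    have h8 : 0 ≤ (i : ℝ) - 2 := by linarith
    rw [hG]
    positivity
  refine (term_two hm hi4 hiM hB hx hxi k).trans ?_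
  rw [← hD, ← hG, ← hbase]
  unfold Ek Fk
  have q1 : (((m + i + k - 4).factorial : ℝ) * ((k : ℝ) + 1) /
      (((m - 4).factorial : ℝ) * ((i - 1).factorial : ℝ) * ((k + 2).factorial : ℝ))) *
      ((D + k) / ((m + 1 + k).factorial : ℝ)) ≤
      base * (((k : ℝ) + 1) * (D + k) * yR m i ^ (k + 1) / ((k + 2).factorial : ℝ)) := by
    have r1 := fac_ratio (m := m) (i := i) (by omega) (k + 1) hi4
    rw [show m + i - 5 + (k + 1) = m + i + k - 4 by omega, show m + (k + 1) = m + 1 + k by omega] at r1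
    have g1 : (0 : ℝ) < ((m + 1 + k).factorial : ℝ) := by exact_mod_cast Nat.factorial_pos _
    have g2 : (0 : ℝ) < ((k + 2).factorial : ℝ) := by exact_mod_cast Nat.factorial_pos _
    have r2 : ((m + i + k - 4).factorial : ℝ) / ((m + 1 + k).factorial : ℝ) ≤
        ((m + i - 5).factorial : ℝ) * yR m i ^ (k + 1) / (m.factorial : ℝ) := by
      rw [div_le_div_iff₀ g1 hF4]
      linarith
    have e1 : (((m + i + k - 4).factorial : ℝ) * ((k : ℝ) + 1) /
        (((m - 4).factorial : ℝ) * ((i - 1).factorial : ℝ) * ((k + 2).factorial : ℝ))) *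
        ((D + k) / ((m + 1 + k).factorial : ℝ)) =
        (((m + i + k - 4).factorial : ℝ) / ((m + 1 + k).factorial : ℝ)) *
        (((k : ℝ) + 1) * (D + k) /
          (((m - 4).factorial : ℝ) * ((i - 1).factorial : ℝ) * ((k + 2).factorial : ℝ))) := by
      field_simp
    rw [e1]
    refine (mul_le_mul_of_nonneg_right r2 (by positivity)).trans (le_of_eq ?_)
    rw [hbase']
    field_simp
  have q2 : ((D + k) / ((m + 1 + k).factorial : ℝ)) ≤
      (D + k) / (((m + 1).factorial : ℝ) * ((m : ℝ) + 2) ^ k) := by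
    refine div_le_div_of_nonneg_left (by positivity) (by positivity) ?_
    have := Nat.factorial_mul_pow_le_factorial (m := m + 1) (n := k)
    have h9 : (((m + 1).factorial * (m + 1 + 1) ^ k : ℕ) : ℝ) ≤ ((m + 1 + k).factorial : ℝ) := by
      exact_mod_cast this
    push_cast at h9
    rwa [show (m : ℝ) + 1 + 1 = m + 2 by ring] at h9
  have hg0 : 0 ≤ ((m + i - 5).factorial : ℝ) / (((i - 1).factorial : ℝ) * ((m - 3).factorial : ℝ)) := by
    positivity
  have hGc : Gc m i = G / (((m : ℝ) - 3) * ((m : ℝ) + 1)) := by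
    unfold Gc
    rw [hG]
    field_simp
  calc (muR m i * (((m + i + k - 4).factorial : ℝ) * ((k : ℝ) + 1) /
        (((m - 4).factorial : ℝ) * ((i - 1).factorial : ℝ) * ((k + 2).factorial : ℝ))) +
      (((m + i - 5).factorial : ℝ) / (((i - 1).factorial : ℝ) * ((m - 3).factorial : ℝ))) *
        (G * ((i - 3 + k).choose k : ℝ))) *
      (etaR B x * ((D + k) / ((m + 1 + k).factorial : ℝ)))
      = (muR m i * ((((m + i + k - 4).factorial : ℝ) * ((k : ℝ) + 1) /
        (((m - 4).factorial : ℝ) * ((i - 1).factorial : ℝ) * ((k + 2).factorial : ℝ))) *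
        ((D + k) / ((m + 1 + k).factorial : ℝ))) +
        ((((m + i - 5).factorial : ℝ) / (((i - 1).factorial : ℝ) * ((m - 3).factorial : ℝ))) *
        (G * ((i - 3 + k).choose k : ℝ))) * ((D + k) / ((m + 1 + k).factorial : ℝ))) *
        etaR B x := by ring
    _ ≤ (muR m i * (base * (((k : ℝ) + 1) * (D + k) * yR m i ^ (k + 1) /
        ((k + 2).factorial : ℝ))) +
        ((((m + i - 5).factorial : ℝ) / (((i - 1).factorial : ℝ) * ((m - 3).factorial : ℝ))) *
        (G * ((i - 3 + k).choose k : ℝ))) *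
          ((D + k) / (((m + 1).factorial : ℝ) * ((m : ℝ) + 2) ^ k))) * etaR B x := by
        refine mul_le_mul_of_nonneg_right (add_le_add ?_ ?_) heta
        · exact mul_le_mul_of_nonneg_left q1 hmu
        · exact mul_le_mul_of_nonneg_left q2 (by positivity)
    _ = _ := by
        rw [hGc, hF2, hbase', Nat.factorial_succ m]
        push_cast
        field_simp

/-- the sum of all terms `n ≥ 2` -/
theorem all_le {m M i : ℕ} (hm : 16 ≤ m) (hi4 : 4 ≤ i) (hiM : i ≤ M + m) {B : Finset ℕ}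
    (hB : B ∈ Lv (M + 1) (m + (m - 3))) {x : ℕ} (hx : x ∈ B.erase (tb B)) (hxi : x = M + m - i)
    {D : ℝ} (hD : D = |(M : ℝ) + m - tb B|) (N : ℕ) :
    ∑ k ∈ range N, |kh m (M + m) x (i + k) * Rr B x (i + k)| ≤
      bs m i * etaR B x * (muR m i * SAR (yR m i) (EyR m i) D +
        Gc m i * ((((m : ℝ) + 2) / ((m : ℝ) + 1)) ^ (i - 2) * (D + ((i : ℝ) - 2) / ((m : ℝ) + 1)))) := by
  have hD0 : 0 ≤ D := by
    rw [hD]
    exact abs_nonneg _
  refine (sum_le_sum fun k _ => term_le hm hi4 hiM hB hx hxi hD k).trans ?_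
  rw [← mul_sum, sum_add_distrib, ← mul_sum, ← mul_sum]
  refine mul_le_mul_of_nonneg_left ?_ (mul_nonneg (bs_nonneg m i) (etaR_nonneg B x))
  have hy : 1 ≤ yR m i := by
    unfold yR
    have : 0 ≤ ((i - 5 : ℕ) : ℝ) / ((m : ℝ) + 1) := by positivity
    linarith
  have s1 : ∑ k ∈ range N, Ek m i D k ≤ SAR (yR m i) (EyR m i) D :=
    (exp_part N hy hD0).trans (SAR_mono hy (exp_yR_le (by omega) i) hD0)
  have s2 := geo_part (i - 3) m N hD0
  rw [show i - 3 + 1 = i - 2 by omega] at s2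
  have ei : ((i - 3 : ℕ) : ℝ) + 1 = (i : ℝ) - 2 := by
    rw [Nat.cast_sub (by omega)]
    push_cast
    ring
  rw [ei] at s2
  exact add_le_add (mul_le_mul_of_nonneg_left s1 (muR_nonneg m i))
    (mul_le_mul_of_nonneg_left s2 (Gc_nonneg hm hi4))

/-- the sum of the terms `n ≥ 4` -/
theorem tail_le {m M i : ℕ} (hm : 16 ≤ m) (hi4 : 4 ≤ i) (hiM : i ≤ M + m) {B : Finset ℕ}
    (hB : B ∈ Lv (M + 1) (m + (m - 3))) {x : ℕ} (hx : x ∈ B.erase (tb B)) (hxi : x = M + m - i)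
    {D : ℝ} (hD : D = |(M : ℝ) + m - tb B|) (N : ℕ) :
    ∑ k ∈ range N, |kh m (M + m) x (i + (2 + k)) * Rr B x (i + (2 + k))| ≤
      bs m i * etaR B x * (muR m i * (SAR (yR m i) (EyR m i) D - Ek m i D 0 - Ek m i D 1) +
        Gc m i * ((((m : ℝ) + 2) / ((m : ℝ) + 1)) ^ (i - 2) * (D + ((i : ℝ) - 2) / ((m : ℝ) + 1)) -
          Fk m i D 0 - Fk m i D 1)) := by
  have hD0 : 0 ≤ D := by
    rw [hD]
    exact abs_nonneg _
  refine (sum_le_sum fun k _ => term_le hm hi4 hiM hB hx hxi hD (2 + k)).trans ?_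
  rw [← mul_sum, sum_add_distrib, ← mul_sum, ← mul_sum]
  refine mul_le_mul_of_nonneg_left ?_ (mul_nonneg (bs_nonneg m i) (etaR_nonneg B x))
  have hy : 1 ≤ yR m i := by
    unfold yR
    have : 0 ≤ ((i - 5 : ℕ) : ℝ) / ((m : ℝ) + 1) := by positivity
    linarith
  have s1 : ∑ k ∈ range (2 + N), Ek m i D k ≤ SAR (yR m i) (EyR m i) D :=
    (exp_part (2 + N) hy hD0).trans (SAR_mono hy (exp_yR_le (by omega) i) hD0)
  have s2 := geo_part (i - 3) m (2 + N) hD0
  rw [show i - 3 + 1 = i - 2 by omega] at s2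
  have ei : ((i - 3 : ℕ) : ℝ) + 1 = (i : ℝ) - 2 := by
    rw [Nat.cast_sub (by omega)]
    push_cast
    ring
  rw [ei] at s2
  have s2' : ∑ k ∈ range (2 + N), Fk m i D k ≤
    (((m : ℝ) + 2) / ((m : ℝ) + 1)) ^ (i - 2) * (D + ((i : ℝ) - 2) / ((m : ℝ) + 1)) := s2
  rw [sum_range_add _ 2 N, sum_range_succ, sum_range_one] at s1 s2'
  exact add_le_add (mul_le_mul_of_nonneg_left (by linarith) (muR_nonneg m i))
    (mul_le_mul_of_nonneg_left (by linarith) (Gc_nonneg hm hi4))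

theorem muR_one {m i : ℕ} (hm : 16 ≤ m) (h : i + 6 ≤ 2 * m) : muR m i = 1 := by
  unfold muR
  refine max_eq_left ?_
  have hmR : (16 : ℝ) ≤ m := by exact_mod_cast hm
  have hR : (i : ℝ) + 6 ≤ 2 * m := by exact_mod_cast h
  rw [div_le_one (by linarith)]
  linarith

end Pool.JM.H81
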